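import Pool.Agent.H952.BW.Stm

set_option autoImplicit false

namespace Pool.Agent.H952.BW

open Finset Pool.Agent.K4H60.BZ
open scoped Pointwise BigOperators ComplexConjugate

variable {G : Type*} [AddCommGroup G] [Fintype G] [DecidableEq G]

theorem B_mem_PT {B : Finset G} {n : ℕ} {v : Fin n → G} : v ∈ PT B n ↔ ∀ i, v i ∈ B := by
  unfold PT
  exact Fintype.mem_piFinset

theorem B_mem_TT {B : Finset G} {n : ℕ} {v : Fin n → G} {t : G} :
    t ∈ TT B v ↔ ∀ i, v i - t ∈ B := by
  unfold TT
  rw [mem_filter]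
  exact ⟨fun h => h.2, fun h => ⟨mem_univ _, h⟩⟩

theorem B_cw_nonneg (B : Finset G) {n : ℕ} (v : Fin n → G) (u : G) : 0 ≤ cw B v u := by
  unfold cw
  split_ifs
  · positivity
  · exact le_rfl

theorem B_card_TT (B : Finset G) {n : ℕ} (v : Fin n → G) (s : G) :
    (TT B (fun i => v i - s)).card = (TT B v).card := by
  apply card_bij' (fun t _ => t + s) (fun t _ => t - s)
  · intro t ht
    rw [B_mem_TT] at ht ⊢
    intro i
    have h := ht i
    rwa [sub_sub, add_comm s t] at h
  · intro t ht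
    rw [B_mem_TT] at ht ⊢
    intro i
    have h := ht i
    rwa [sub_sub, add_sub_cancel]
  · intro t _
    exact add_sub_cancel_right t s
  · intro t _
    exact sub_add_cancel t s

theorem B_sum_cw (B : Finset G) (n : ℕ) (u : G) (E : (Fin n → G) → ℝ) :
    ∑ v ∈ PT B n, cw B v u * E v =
      ∑ v ∈ (PT B n).filter (fun v => u ∈ TT B v), 1 / ((TT B v).card : ℝ) * E v := by
  rw [sum_filter]
  refine sum_congr rfl fun v _ => ?_
  unfold cw
  split_ifs
  · rfl
  · rw [zero_mul]

/-- T2a -/
theorem PP_symm (B D : Finset G) (n : ℕ) (μ : ℝ) (x y : G) :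
    PP B D n μ y x = (∑ v ∈ PT B n, cw B v (x - y) *
      Real.exp (μ * (gg B D y - (∑ i, ind D (x - v i)) / n))) / (B.card : ℝ) ^ n := by
  unfold PP
  congr 1
  rw [B_sum_cw B n (y - x) (fun v => Real.exp (μ * (gg B D y - (∑ i, ind D (y - v i)) / n))),
    B_sum_cw B n (x - y) (fun v => Real.exp (μ * (gg B D y - (∑ i, ind D (x - v i)) / n)))]
  apply sum_bij' (fun v _ => fun i => v i - (y - x)) (fun v _ => fun i => v i + (y - x))
  · intro v hv
    rw [mem_filter, B_mem_PT, B_mem_TT] at hv ⊢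
    refine ⟨hv.2, fun i => ?_⟩
    have h : v i - (y - x) - (x - y) = v i := by abel
    rw [h]
    exact hv.1 i
  · intro v hv
    rw [mem_filter, B_mem_PT, B_mem_TT] at hv ⊢
    refine ⟨fun i => ?_, fun i => ?_⟩
    · have h : v i + (y - x) = v i - (x - y) := by abel
      rw [h]
      exact hv.2 i
    · have h : v i + (y - x) - (y - x) = v i := by abel
      rw [h]
      exact hv.1 i
  · intro v _
    funext i
    exact sub_add_cancel _ _
  · intro v _
    funext i
    exact add_sub_cancel_right _ _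
  · intro v _
    rw [B_card_TT]
    have h : ∀ i, ind D (x - (v i - (y - x))) = ind D (y - v i) := by
      intro i
      congr 1
      abel
    rw [sum_congr rfl fun i _ => h i]

/-- T2b -/
theorem RR_tilt (B D : Finset G) (n : ℕ) (lam : ℝ) (x y : G) :
    (RR B n x y * Real.exp (lam * (gg B D y - gg B D x))) ^ 2 ≤
      PP B D n (2 * lam) y x * PP B D n (-(2 * lam)) x y := by
  rw [PP_symm]
  unfold RR PP
  have h1 : ((∑ v ∈ PT B n, cw B v (x - y)) / (B.card : ℝ) ^ n *
      Real.exp (lam * (gg B D y - gg B D x))) ^ 2 =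
      (∑ v ∈ PT B n, cw B v (x - y) * Real.exp (lam * (gg B D y - gg B D x))) ^ 2 /
        ((B.card : ℝ) ^ n * (B.card : ℝ) ^ n) := by
    rw [← sum_mul, ← sq, div_mul_eq_mul_div, div_pow]
  rw [h1, div_mul_div_comm]
  apply div_le_div_of_nonneg_right _ (by positivity)
  apply sum_sq_le_sum_mul_sum_of_sq_eq_mul
  · intro v _
    exact mul_nonneg (B_cw_nonneg B v _) (Real.exp_pos _).le
  · intro v _
    exact mul_nonneg (B_cw_nonneg B v _) (Real.exp_pos _).le
  · intro v _
    have h2 : Real.exp (2 * lam * (gg B D y - (∑ i, ind D (x - v i)) / n)) *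
        Real.exp (-(2 * lam) * (gg B D x - (∑ i, ind D (x - v i)) / n)) =
        Real.exp (lam * (gg B D y - gg B D x)) ^ 2 := by
      rw [← Real.exp_add, sq, ← Real.exp_add]
      congr 1
      ring
    calc (cw B v (x - y) * Real.exp (lam * (gg B D y - gg B D x))) ^ 2
        = cw B v (x - y) * cw B v (x - y) * Real.exp (lam * (gg B D y - gg B D x)) ^ 2 := by ring
      _ = _ := by rw [← h2]; ring

end Pool.Agent.H952.BW
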