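import Pool.Agent.H952.BW.Stm

/-! Chang's theorem for a mixture (helper372). -/

set_option autoImplicit false

namespace Pool.Agent.H952.BW

open Finset Pool.Agent.K4H60.BZ
open scoped Pointwise BigOperators ComplexConjugate

variable {G : Type*} [AddCommGroup G] [Fintype G] [DecidableEq G]

theorem chang_gen (T : Finset G) (hT : T.Nonempty) (Λ : Finset (AddChar G ℂ))
    (hΛ : AddDissociated (Λ : Set (AddChar G ℂ))) :
    1 / 2 * ∑ ψ ∈ Λ, ‖∑ x ∈ T, ψ x‖ / (T.card : ℝ) ≤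
      Real.log (Fintype.card G / T.card) + (Λ.card : ℝ) / 8 := by
  classical
  have hTpos : (0 : ℝ) < T.card := by exact_mod_cast hT.card_pos
  obtain ⟨c, hc⟩ : ∃ c : AddChar G ℂ → ℂ, c = fun ψ : AddChar G ℂ =>
    conj (∑ x ∈ T, ψ x) / ((‖∑ x ∈ T, ψ x‖ : ℝ) : ℂ) := ⟨_, rfl⟩
  have hcn : ∀ ψ ∈ Λ, ‖c ψ‖ ≤ 1 := by
    intro ψ hψ
    rw [hc]
    simp only [norm_div, RCLike.norm_conj, Complex.norm_real, norm_norm]
    exact div_self_le_one _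
  have hcs : ∀ ψ ∈ Λ, ∑ x ∈ T, (c ψ * ψ x).re = ‖∑ x ∈ T, ψ x‖ := by
    intro ψ hψ
    rw [← Complex.re_sum, ← mul_sum, hc]
    simp only
    by_cases h0 : ∑ x ∈ T, ψ x = 0
    · rw [h0]
      simp
    · have hne : (‖∑ x ∈ T, ψ x‖ : ℂ) ≠ 0 := by
        exact_mod_cast (norm_pos_iff.2 h0).ne'
      have e1 : conj (∑ x ∈ T, ψ x) / ‖∑ x ∈ T, ψ x‖ * ∑ x ∈ T, ψ x = (‖∑ x ∈ T, ψ x‖ : ℂ) := by
        rw [div_mul_eq_mul_div, mul_comm, Complex.mul_conj, div_eq_iff hne,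
          Complex.normSq_eq_norm_sq]
        push_cast
        ring
      rw [e1, Complex.ofReal_re]
  obtain ⟨u, hu⟩ : ∃ u : G → ℝ, u = fun x => ∑ ψ ∈ Λ, (c ψ * ψ x).re := ⟨_, rfl⟩
  have h1 : ∑ x ∈ T, u x = ∑ ψ ∈ Λ, ‖∑ x ∈ T, ψ x‖ := by
    rw [hu, sum_comm]
    exact sum_congr rfl hcs
  have h2 : Real.exp (∑ x ∈ T, (1 / T.card : ℝ) • (1 / 2 * u x)) ≤
      ∑ x ∈ T, (1 / T.card : ℝ) • Real.exp (1 / 2 * u x) := by
    apply convexOn_exp.map_sum_le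
    · intro i _
      positivity
    · rw [sum_const, nsmul_eq_mul]
      field_simp
    · intro i _
      trivial
  have h3 : ∑ x ∈ T, (1 / T.card : ℝ) • Real.exp (1 / 2 * u x) ≤
      (1 / T.card : ℝ) * (Fintype.card G * Real.exp ((1 / 2) ^ 2 * Λ.card / 2)) := by
    simp only [smul_eq_mul]
    rw [← mul_sum]
    gcongr
    calc _ ≤ ∑ x : G, Real.exp (1 / 2 * u x) :=
          sum_le_sum_of_subset_of_nonneg (subset_univ _) fun x _ _ => (Real.exp_pos _).le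
      _ ≤ _ := by
          rw [hu]
          exact rudin Λ hΛ c hcn (1 / 2)
  have h4 : ∑ x ∈ T, (1 / T.card : ℝ) • (1 / 2 * u x) =
      1 / 2 * ∑ ψ ∈ Λ, ‖∑ x ∈ T, ψ x‖ / (T.card : ℝ) := by
    simp only [smul_eq_mul]
    rw [← mul_sum, ← mul_sum, h1, ← sum_div]
    ring
  have hGpos : (0 : ℝ) < Fintype.card G := by exact_mod_cast Fintype.card_pos
  have h5 : Real.exp (1 / 2 * ∑ ψ ∈ Λ, ‖∑ x ∈ T, ψ x‖ / (T.card : ℝ)) ≤
      (Fintype.card G / T.card) * Real.exp ((Λ.card : ℝ) / 8) := by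
    rw [← h4]
    refine (h2.trans h3).trans (le_of_eq ?_)
    rw [show (1 / 2 : ℝ) ^ 2 * Λ.card / 2 = (Λ.card : ℝ) / 8 by ring]
    ring
  have h6 := (Real.le_log_iff_exp_le (by positivity)).2 h5
  rwa [Real.log_mul (by positivity) (Real.exp_pos _).ne', Real.log_exp] at h6

/-- T7 -/
theorem chang_mix (B : Finset G) (hB : B.Nonempty) (n : ℕ) (Λ : Finset (AddChar G ℂ))
    (hΛ : AddDissociated (Λ : Set (AddChar G ℂ))) (hspec : ∀ ψ ∈ Λ, (1 / 2 : ℝ) ≤ ‖cc B n ψ‖) :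
    (Λ.card : ℝ) ≤ 8 * HH B n := by
  have hBpos : (0 : ℝ) < B.card := by exact_mod_cast hB.card_pos
  have hBn : (0 : ℝ) < (B.card : ℝ) ^ n := by positivity
  have hne : ∀ v ∈ PT B n, (TT B v).Nonempty := by
    intro v hv
    refine ⟨0, ?_⟩
    unfold TT
    rw [mem_filter]
    refine ⟨mem_univ _, fun i => ?_⟩
    rw [sub_zero]
    exact Fintype.mem_piFinset.1 hv i
  have hcard : ((PT B n).card : ℝ) = (B.card : ℝ) ^ n := by
    unfold PT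
    rw [Fintype.card_piFinset_const]
    push_cast
    rfl
  have hcc : ∀ ψ : AddChar G ℂ, ‖cc B n ψ‖ ≤
      (∑ v ∈ PT B n, ‖∑ t ∈ TT B v, ψ t‖ / ((TT B v).card : ℝ)) / (B.card : ℝ) ^ n := by
    intro ψ
    unfold cc
    rw [norm_div, norm_pow, Complex.norm_natCast]
    refine div_le_div_of_nonneg_right ?_ hBn.le
    refine (norm_sum_le _ _).trans (le_of_eq (sum_congr rfl fun v _ => ?_))
    rw [norm_div, Complex.norm_natCast, ← map_sum, RCLike.norm_conj]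
  have h1 : (Λ.card : ℝ) * (1 / 2) ≤ ∑ ψ ∈ Λ, ‖cc B n ψ‖ := by
    rw [← nsmul_eq_mul, ← sum_const]
    exact sum_le_sum hspec
  have h2 : ∑ ψ ∈ Λ, ‖cc B n ψ‖ ≤
      ∑ ψ ∈ Λ, (∑ v ∈ PT B n, ‖∑ t ∈ TT B v, ψ t‖ / ((TT B v).card : ℝ)) / (B.card : ℝ) ^ n :=
    sum_le_sum fun ψ _ => hcc ψ
  have h3 : 1 / 2 * ∑ ψ ∈ Λ, (∑ v ∈ PT B n, ‖∑ t ∈ TT B v, ψ t‖ / ((TT B v).card : ℝ)) /
      (B.card : ℝ) ^ n = (∑ v ∈ PT B n, 1 / 2 * ∑ ψ ∈ Λ, ‖∑ t ∈ TT B v, ψ t‖ /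
        ((TT B v).card : ℝ)) / (B.card : ℝ) ^ n := by
    rw [← sum_div, sum_comm, ← mul_sum]
    ring
  have h4 : (∑ v ∈ PT B n, 1 / 2 * ∑ ψ ∈ Λ, ‖∑ t ∈ TT B v, ψ t‖ / ((TT B v).card : ℝ)) /
      (B.card : ℝ) ^ n ≤ HH B n + (Λ.card : ℝ) / 8 := by
    have h5 : ∑ v ∈ PT B n, 1 / 2 * ∑ ψ ∈ Λ, ‖∑ t ∈ TT B v, ψ t‖ / ((TT B v).card : ℝ) ≤
        ∑ v ∈ PT B n, (Real.log (Fintype.card G / (TT B v).card) + (Λ.card : ℝ) / 8) :=
      sum_le_sum fun v hv => chang_gen (TT B v) (hne v hv) Λ hΛ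
    rw [sum_add_distrib, sum_const, nsmul_eq_mul, hcard] at h5
    rw [div_le_iff₀ hBn]
    refine h5.trans (le_of_eq ?_)
    unfold HH
    field_simp
  linarith

end Pool.Agent.H952.BW
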