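import Pool.Agent.H952.BW.Stm

set_option autoImplicit false

namespace Pool.Agent.H952.BW

open Finset Pool.Agent.K4H60.BZ
open scoped Pointwise BigOperators ComplexConjugate

variable {G : Type*} [AddCommGroup G] [Fintype G] [DecidableEq G]

theorem eigen_aux (B : Finset G) {n : ℕ} (v : Fin n → G) (ψ : AddChar G ℂ) (x : G) :
    ∑ y, ((cw B v (x - y) : ℝ) : ℂ) * ψ y =
      (∑ t ∈ TT B v, conj (ψ t)) / ((TT B v).card : ℂ) * ψ x := by
  rw [← Equiv.sum_comp (Equiv.subLeft x)]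
  have h1 : ∀ t : G, ((cw B v (x - (Equiv.subLeft x) t) : ℝ) : ℂ) * ψ ((Equiv.subLeft x) t) =
      if t ∈ TT B v then conj (ψ t) / ((TT B v).card : ℂ) * ψ x else 0 := by
    intro t
    rw [Equiv.subLeft_apply, sub_sub_cancel]
    unfold cw
    split_ifs with ht
    · rw [sub_eq_add_neg, AddChar.map_add_eq_mul, AddChar.map_neg_eq_conj]
      push_cast
      ring
    · simp
  rw [Finset.sum_congr rfl (fun t _ => h1 t), Finset.sum_ite_mem, Finset.univ_inter, Finset.sum_div,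
    Finset.sum_mul]

/-- T6 -/
theorem eigen (B : Finset G) (n : ℕ) (ψ : AddChar G ℂ) (x : G) :
    ∑ y, ((RR B n x y : ℝ) : ℂ) * ψ y = cc B n ψ * ψ x := by
  have h1 : ∀ y : G, ((RR B n x y : ℝ) : ℂ) * ψ y =
      (∑ v ∈ PT B n, ((cw B v (x - y) : ℝ) : ℂ) * ψ y) / (B.card : ℂ) ^ n := by
    intro y
    unfold RR
    push_cast
    rw [← Finset.sum_mul]
    ring
  rw [Finset.sum_congr rfl (fun y _ => h1 y), ← Finset.sum_div, Finset.sum_comm,
    Finset.sum_congr rfl (fun v _ => eigen_aux B v ψ x), ← Finset.sum_mul]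
  unfold cc
  ring

end Pool.Agent.H952.BW
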