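import Pool.Agent.H952.BW.Stm

set_option autoImplicit false

namespace Pool.Agent.H952.BW

open Finset Pool.Agent.K4H60.BZ
open scoped Pointwise BigOperators ComplexConjugate

variable {G : Type*} [AddCommGroup G] [Fintype G] [DecidableEq G]

/-- membership in `TT` -/
theorem eb_mem_TT (B : Finset G) {n : ℕ} (v : Fin n → G) (t : G) :
    t ∈ TT B v ↔ ∀ i, v i - t ∈ B := by
  unfold TT
  rw [Finset.mem_filter]
  exact ⟨fun h => h.2, fun h => ⟨Finset.mem_univ _, h⟩⟩

/-- membership in `PT` -/
theorem eb_mem_PT (B : Finset G) {n : ℕ} (v : Fin n → G) :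
    v ∈ PT B n ↔ ∀ i, v i ∈ B := by
  unfold PT
  rw [Fintype.mem_piFinset]

/-- `TT B v` is not empty for a sample -/
theorem eb_TT_pos (B : Finset G) {n : ℕ} (v : Fin n → G) (hv : v ∈ PT B n) :
    0 < (TT B v).card := by
  rw [Finset.card_pos]
  refine ⟨0, (eb_mem_TT B v 0).2 fun i => ?_⟩
  rw [sub_zero]
  exact (eb_mem_PT B v).1 hv i

/-- translation -/
theorem eb_TT_card (B : Finset G) {n : ℕ} (v v0 : Fin n → G) (t : G) (h : ∀ i, v i = v0 i - t) :
    (TT B v).card = (TT B v0).card := by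
  refine Finset.card_bij (fun u _ => u + t) ?_ ?_ ?_
  · intro u hu
    rw [eb_mem_TT] at hu ⊢
    intro i
    have h1 := hu i
    rw [h i] at h1
    have h2 : v0 i - (u + t) = v0 i - t - u := by abel
    rw [h2]
    exact h1
  · intro u _ u' _ huu
    exact add_right_cancel huu
  · intro u hu
    refine ⟨u - t, ?_, sub_add_cancel u t⟩
    rw [eb_mem_TT] at hu ⊢
    intro i
    have h1 := hu i
    rw [h i]
    have h2 : v0 i - t - (u - t) = v0 i - u := by abel
    rw [h2]
    exact h1

/-- one fibre -/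
theorem eb_fibre (B : Finset G) (n : ℕ) (w : Fin n → G) :
    ∑ v ∈ (PT B (n + 1)).filter (fun v => (fun i : Fin n => v i.succ - v 0) = w),
      1 / ((TT B v).card : ℝ) ≤ 1 := by
  set F := (PT B (n + 1)).filter (fun v => (fun i : Fin n => v i.succ - v 0) = w) with hF
  rcases F.eq_empty_or_nonempty with he | ⟨v0, hv0⟩
  · rw [he, Finset.sum_empty]
    exact zero_le_one
  · have hv0' := hv0
    rw [hF, Finset.mem_filter] at hv0'
    obtain ⟨hv0P, hv0w⟩ := hv0'
    have key : ∀ v ∈ F, ∀ i, v i = v0 i - (v0 0 - v 0) := by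
      intro v hv i
      rw [hF, Finset.mem_filter] at hv
      obtain ⟨_, hvw⟩ := hv
      refine Fin.cases ?_ (fun j => ?_) i
      · abel
      · have h1 : v j.succ - v 0 = v0 j.succ - v0 0 := by
          have := congrFun (hvw.trans hv0w.symm) j
          exact this
        have h2 : v j.succ = v0 j.succ - v0 0 + v 0 := by
          rw [← h1]; abel
        rw [h2]; abel
    have hcard : ∀ v ∈ F, (TT B v).card = (TT B v0).card := fun v hv =>
      eb_TT_card B v v0 _ (key v hv)
    have hsum : ∑ v ∈ F, 1 / ((TT B v).card : ℝ) = F.card * (1 / ((TT B v0).card : ℝ)) := by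
      rw [Finset.sum_congr rfl (fun v hv => by rw [hcard v hv]), Finset.sum_const, nsmul_eq_mul]
    have hle : F.card ≤ (TT B v0).card := by
      refine Finset.card_le_card_of_injOn (fun v => v0 0 - v 0) ?_ ?_
      · intro v hv
        have hv' : v ∈ F := hv
        have hvP : v ∈ PT B (n + 1) := by
          rw [hF, Finset.mem_filter] at hv'
          exact hv'.1
        show v0 0 - v 0 ∈ (TT B v0 : Finset G)
        rw [eb_mem_TT]
        intro i
        rw [← key v hv' i]
        exact (eb_mem_PT B v).1 hvP i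
      · intro v hv v' hv' hvv
        have h0 : v0 0 - v 0 = v0 0 - v' 0 := hvv
        funext i
        rw [key v hv i, key v' hv' i, h0]
    have hpos : (0 : ℝ) < ((TT B v0).card : ℝ) := by
      exact_mod_cast eb_TT_pos B v0 hv0P
    rw [hsum, mul_one_div, div_le_one hpos]
    exact_mod_cast hle

/-- the sum of the `1/|T_v|` -/
theorem eb_sum (B : Finset G) (n : ℕ) :
    ∑ v ∈ PT B (n + 1), 1 / ((TT B v).card : ℝ) ≤ ((B - B).card : ℝ) ^ n := by
  have hmaps : ∀ v ∈ PT B (n + 1), (fun i : Fin n => v i.succ - v 0) ∈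
      Fintype.piFinset (fun _ : Fin n => B - B) := by
    intro v hv
    rw [Fintype.mem_piFinset]
    intro i
    exact Finset.sub_mem_sub ((eb_mem_PT B v).1 hv _) ((eb_mem_PT B v).1 hv _)
  rw [← Finset.sum_fiberwise_of_maps_to hmaps]
  calc _ ≤ ∑ w ∈ Fintype.piFinset (fun _ : Fin n => B - B), (1 : ℝ) :=
        Finset.sum_le_sum (fun w _ => eb_fibre B n w)
    _ = ((B - B).card : ℝ) ^ n := by
        rw [Finset.sum_const, nsmul_eq_mul, mul_one, Fintype.card_piFinset_const]
        push_cast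
        rfl

/-- T8 -/
theorem ent_bound (B : Finset G) (hB : B.Nonempty) (n : ℕ) (l : ℝ)
    (hdiff : ((B - B).card : ℝ) ≤ Real.exp l * B.card) :
    HH B (n + 1) ≤ Real.log (Fintype.card G / B.card) + n * l := by
  have hb : (0 : ℝ) < (B.card : ℝ) := by exact_mod_cast hB.card_pos
  have hG : (0 : ℝ) < (Fintype.card G : ℝ) := by
    have : 0 < Fintype.card G := Fintype.card_pos_iff.2 ⟨0⟩
    exact_mod_cast this
  set c : ℝ := Real.exp (n * l) / B.card with hc
  have hcpos : 0 < c := div_pos (Real.exp_pos _) hb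
  have hM : (0 : ℝ) < (B.card : ℝ) ^ (n + 1) := pow_pos hb _
  have hcardPT : ((PT B (n + 1)).card : ℝ) = (B.card : ℝ) ^ (n + 1) := by
    unfold PT
    rw [Fintype.card_piFinset_const]
    push_cast
    rfl
  have hS : ∑ v ∈ PT B (n + 1), 1 / ((TT B v).card : ℝ) ≤ c * (B.card : ℝ) ^ (n + 1) := by
    refine (eb_sum B n).trans ?_
    have h1 : ((B - B).card : ℝ) ^ n ≤ (Real.exp l * B.card) ^ n :=
      pow_le_pow_left₀ (Nat.cast_nonneg _) hdiff n
    refine h1.trans (le_of_eq ?_)
    rw [hc, mul_pow, ← Real.exp_nat_mul, pow_succ]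
    field_simp
  have hterm : ∀ v ∈ PT B (n + 1), Real.log (Fintype.card G / (TT B v).card) ≤
      Real.log (Fintype.card G) + ((1 / ((TT B v).card : ℝ)) / c - 1 + Real.log c) := by
    intro v hv
    have ht : (0 : ℝ) < ((TT B v).card : ℝ) := by exact_mod_cast eb_TT_pos B v hv
    have h1 := Real.log_le_sub_one_of_pos (div_pos (div_pos one_pos ht) hcpos)
    rw [Real.log_div (ne_of_gt (div_pos one_pos ht)) hcpos.ne', one_div, Real.log_inv] at h1
    rw [Real.log_div hG.ne' ht.ne', one_div]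
    linarith
  have hsum : ∑ v ∈ PT B (n + 1), Real.log (Fintype.card G / (TT B v).card) ≤
      (B.card : ℝ) ^ (n + 1) * (Real.log (Fintype.card G) + Real.log c) := by
    refine (Finset.sum_le_sum hterm).trans ?_
    have h2 : ∑ v ∈ PT B (n + 1), (Real.log (Fintype.card G) +
        ((1 / ((TT B v).card : ℝ)) / c - 1 + Real.log c)) =
        (∑ v ∈ PT B (n + 1), 1 / ((TT B v).card : ℝ)) / c +
          ((PT B (n + 1)).card : ℝ) * (Real.log (Fintype.card G) - 1 + Real.log c) := by
      rw [Finset.sum_div, ← nsmul_eq_mul, ← Finset.sum_const, ← Finset.sum_add_distrib]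
      refine Finset.sum_congr rfl fun v _ => ?_
      ring
    rw [h2, hcardPT]
    have h3 : (∑ v ∈ PT B (n + 1), 1 / ((TT B v).card : ℝ)) / c ≤ (B.card : ℝ) ^ (n + 1) := by
      rw [div_le_iff₀ hcpos, mul_comm]
      exact hS
    nlinarith [h3]
  have hlogc : Real.log c = n * l - Real.log B.card := by
    rw [hc, Real.log_div (Real.exp_pos _).ne' hb.ne', Real.log_exp]
  unfold HH
  rw [div_le_iff₀ hM, Real.log_div hG.ne' hb.ne']
  refine hsum.trans (le_of_eq ?_)
  rw [hlogc]
  ring

end Pool.Agent.H952.BW
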