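import Pool.Agent.H952.BW.Stm

/-!
helper34: the deduction of the bound for a cyclic group (adapted from `Pool.Agent.K4H60.BZ.main`).
-/

set_option autoImplicit false

namespace Pool.Agent.H952.BW

open Finset Pool.Agent.K4H60.BZ
open scoped Pointwise BigOperators ComplexConjugate

theorem main_of (hsd : ∀ (G : Type) [AddCommGroup G] [Fintype G] [DecidableEq G] (B : Finset G), B.Nonempty →
      ∀ l : ℝ, 0 ≤ l → ((B - B).card : ℝ) ≤ Real.exp l * B.card →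
      ∃ Λ : Finset (AddChar G ℂ),
        (Λ.card : ℝ) ≤ 8 * (Real.log (Fintype.card G / B.card) + 13000 * (1 + l) ^ 3) ∧
        ∀ x : G, (∀ ψ ∈ Λ, ‖ψ x - 1‖ ≤ 1 / (216 * ((Λ.card : ℝ) + 1) ^ 3)) →
          ∃ a₁ ∈ B, ∃ a₂ ∈ B, ∃ a₃ ∈ B, ∃ a₄ ∈ B, x = a₁ + a₂ - a₃ - a₄) :
    ∃ C : ℝ, 0 < C ∧ ∃ c : ℝ, 0 < c ∧
    ∀ N : ℕ, 0 < N → ∀ A : Finset (ZMod N), A.Nonempty → (A.card : ℝ) / (N : ℝ) ≤ 1 / 2 →
    ∀ K : ℝ, (A.card : ℝ) ^ 3 ≤ K * (A.addEnergy A : ℕ) →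
      ∃ Γ : Finset (ZMod N), ∃ ε : ℝ, 0 < ε ∧
        (Γ.card : ℝ) ≤ C * (Real.log ((N : ℝ) / (A.card : ℝ)) + Real.log K ^ 3) ∧
        c / Real.log ((N : ℝ) / (A.card : ℝ)) ≤ ε ∧
        ∀ x : ZMod N, (∀ γ ∈ Γ, nint (((γ * x).val : ℝ) / (N : ℝ)) ≤ ε) →
          ∃ a₁ ∈ A, ∃ a₂ ∈ A, ∃ a₃ ∈ A, ∃ a₄ ∈ A, x = a₁ + a₂ - a₃ - a₄ := by
  refine ⟨10 ^ 11, by norm_num, 1 / (10 ^ 16), by norm_num, ?_⟩
  intro N hN A hA hα K hK
  have : NeZero N := ⟨hN.ne'⟩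
  have hNpos : (0 : ℝ) < N := by exact_mod_cast hN
  have hApos : (0 : ℝ) < A.card := by exact_mod_cast hA.card_pos
  obtain ⟨L, hL⟩ : ∃ L : ℝ, L = Real.log ((N : ℝ) / (A.card : ℝ)) := ⟨_, rfl⟩
  rw [← hL]
  have hL2 : 0.69 ≤ L := by
    have h1 : (2 : ℝ) ≤ (N : ℝ) / A.card := by
      rw [div_le_iff₀ hNpos] at hα
      rw [le_div_iff₀ hApos]
      linarith
    have h2 := Real.log_le_log (by norm_num) h1
    rw [hL]
    linarith [Real.log_two_gt_d9]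
  -- the optimal K
  obtain ⟨E, hE⟩ : ∃ E : ℝ, E = ((A.addEnergy A : ℕ) : ℝ) := ⟨_, rfl⟩
  rw [← hE] at hK
  have hEpos : 0 < E := by
    rw [hE]
    exact_mod_cast addEnergy_self_pos hA
  obtain ⟨K0, hK0⟩ : ∃ K0 : ℝ, K0 = (A.card : ℝ) ^ 3 / E := ⟨_, rfl⟩
  have hK0K : K0 ≤ K := by
    rw [hK0, div_le_iff₀ hEpos]
    exact hK
  have hEle : E ≤ (A.card : ℝ) ^ 3 := by
    rw [hE]
    have : A.addEnergy A ≤ A.card ^ 3 := by
      rw [addEnergy_eq_card_filter]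
      have h1 : ((((A ×ˢ A) ×ˢ A ×ˢ A).filter fun p : (ZMod N × ZMod N) × ZMod N × ZMod N =>
          p.1.1 + p.1.2 = p.2.1 + p.2.2)).card ≤ ((A ×ˢ A) ×ˢ A).card := by
        apply card_le_card_of_injOn (fun p => (p.1, p.2.1))
        · intro p hp
          simp only [coe_filter, mem_product, Set.mem_ofPred_eq] at hp
          simp only [coe_product, Set.mem_prod, mem_coe]
          exact ⟨⟨hp.1.1.1, hp.1.1.2⟩, hp.1.2.1⟩
        · intro p hp p' hp' hpp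
          simp only [coe_filter, mem_product, Set.mem_ofPred_eq] at hp hp'
          simp only [Prod.mk.injEq] at hpp
          have h2 := hp.2
          have h3 := hp'.2
          rw [hpp.1, hpp.2, h3] at h2
          apply Prod.ext hpp.1
          exact Prod.ext hpp.2 (add_left_cancel h2).symm
      refine h1.trans (le_of_eq ?_)
      rw [card_product, card_product]
      ring
    exact_mod_cast this
  have hK01 : 1 ≤ K0 := by
    rw [hK0, one_le_div hEpos]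
    exact hEle
  have hK0N : K0 ≤ (N : ℝ) / A.card := by
    have h1 : (A.card : ℝ) ^ 2 * (A.card : ℝ) ^ 2 ≤ N * E := by
      have h2 := Finset.le_card_add_mul_addEnergy A A
      have h3 : (A + A).card ≤ N := by
        have := card_le_univ (A + A)
        rwa [ZMod.card] at this
      have h4 : A.card ^ 2 * A.card ^ 2 ≤ N * A.addEnergy A := h2.trans (Nat.mul_le_mul_right _ h3)
      rw [hE]
      exact_mod_cast h4
    rw [hK0, div_le_div_iff₀ hEpos hApos]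
    calc (A.card : ℝ) ^ 3 * A.card = (A.card : ℝ) ^ 2 * (A.card : ℝ) ^ 2 := by ring
      _ ≤ N * E := h1
  obtain ⟨k, hk⟩ : ∃ k : ℝ, k = Real.log K0 := ⟨_, rfl⟩
  have hk0 : 0 ≤ k := by rw [hk]; exact Real.log_nonneg hK01
  have hkK : k ≤ Real.log K := by rw [hk]; exact Real.log_le_log (by linarith) hK0K
  have hkL : k ≤ L := by rw [hk, hL]; exact Real.log_le_log (by linarith) hK0N
  -- Balog-Szemerédi-Gowers
  obtain ⟨B, hBA, hB, hB1, hB2⟩ := Pool.Agent.H217R3.AK.bsg A hA K0 (by linarith) (by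
    rw [← hE, hK0]
    field_simp
    exact le_rfl)
  have hBpos : (0 : ℝ) < B.card := by exact_mod_cast hB.card_pos
  obtain ⟨l, hl⟩ : ∃ l : ℝ, l = 16 + 10 * k := ⟨_, rfl⟩
  have hl0 : 0 ≤ l := by rw [hl]; positivity
  have hdiff : ((B - B).card : ℝ) ≤ Real.exp l * B.card := by
    refine hB2.trans ?_
    have h1 : (2 : ℝ) ^ 22 * K0 ^ 10 ≤ Real.exp l := by
      have h2 : K0 ^ 10 = Real.exp (10 * k) := by
        rw [hk, mul_comm, Real.exp_mul, Real.exp_log (by linarith)]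
        exact_mod_cast rfl
      have h3 : (2 : ℝ) ^ 22 ≤ Real.exp 16 := by
        have : (2 : ℝ) ^ 22 = Real.exp (22 * Real.log 2) := by
          rw [mul_comm, Real.exp_mul, Real.exp_log (by norm_num)]
          norm_num
        rw [this]
        apply Real.exp_le_exp.2
        linarith [Real.log_two_lt_d9]
      rw [h2, hl, Real.exp_add]
      gcongr
    gcongr
  obtain ⟨Λ, hΛ, hmain⟩ := hsd (ZMod N) B hB l hl0 hdiff
  rw [ZMod.card] at hΛ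
  have hlogB : Real.log ((N : ℝ) / B.card) ≤ L + k + 3 := by
    have h1 : (N : ℝ) / B.card ≤ ((N : ℝ) / A.card) * (8 * K0) := by
      rw [div_mul_eq_mul_div, div_le_div_iff₀ hBpos hApos]
      calc (N : ℝ) * A.card ≤ N * (8 * K0 * B.card) := by gcongr
        _ = _ := by ring
    have h2 := Real.log_le_log (by positivity) h1
    rw [Real.log_mul (by positivity) (by positivity), Real.log_mul (by norm_num) (by positivity), ← hL, ← hk] at h2
    have h3 : Real.log 8 ≤ 3 := by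
      have : (8 : ℝ) = 2 ^ (3 : ℕ) := by norm_num
      rw [this, Real.log_pow]
      push_cast
      linarith [Real.log_two_lt_d9]
    linarith
  have hpow : (1 + l) ^ 3 ≤ 4 * (17 ^ 3 + 10 ^ 3 * k ^ 3) := by
    have h1 : 4 * (17 ^ 3 + 10 ^ 3 * k ^ 3) - (1 + l) ^ 3 = 3 * (17 + 10 * k) * (17 - 10 * k) ^ 2 := by
      rw [hl]
      ring
    have h2 : 0 ≤ 3 * (17 + 10 * k) * (17 - 10 * k) ^ 2 := by positivity
    linarith
  have hk3 : 0 ≤ k ^ 3 := by positivity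
  have hΛ2 : (Λ.card : ℝ) + 1 ≤ 5 * 10 ^ 9 * (L + k ^ 3) := by
    have h1 : 1 ≤ 2 * L := by linarith
    linarith
  have hLk : L + k ^ 3 ≤ 5 * L ^ 3 := by
    have h1 : k ^ 3 ≤ L ^ 3 := by gcongr
    have h2 : L ≤ 4 * L ^ 3 := by
      have h3 : (1 : ℝ) ≤ 4 * L ^ 2 := by
        calc (1 : ℝ) ≤ 4 * 0.69 ^ 2 := by norm_num
          _ ≤ 4 * L ^ 2 := by gcongr
      calc L = L * 1 := (mul_one _).symm
        _ ≤ L * (4 * L ^ 2) := by gcongr
        _ = 4 * L ^ 3 := by ring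
    linarith
  have hΛ3 : (Λ.card : ℝ) + 1 ≤ 25 * 10 ^ 9 * L ^ 3 := by linarith
  -- the exchange
  obtain ⟨R, hR⟩ : ∃ R : ℕ, R = ⌈10 ^ 4 * L⌉₊ := ⟨_, rfl⟩
  have hR1 : 10 ^ 4 * L ≤ R := by rw [hR]; exact Nat.le_ceil _
  have hR2 : (R : ℝ) ≤ 2 * 10 ^ 4 * L := by
    rw [hR]
    have := Nat.ceil_lt_add_one (show 0 ≤ 10 ^ 4 * L by linarith)
    linarith
  have hR0 : 1 ≤ R := by
    have : (1 : ℝ) ≤ R := by linarith
    exact_mod_cast this
  have hRpos : (0 : ℝ) < R := by exact_mod_cast hR0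
  obtain ⟨Γ, hΓ, htr⟩ := transfer Λ R 8 hR0
  refine ⟨Γ, 1 / (4 * R), by positivity, ?_, ?_, ?_⟩
  · have h1 : (Γ.card : ℝ) ≤ 9 * Λ.card := by
      have : Γ.card ≤ 9 * Λ.card := hΓ
      exact_mod_cast this
    have h2 : k ^ 3 ≤ Real.log K ^ 3 := by gcongr
    calc (Γ.card : ℝ) ≤ 9 * Λ.card := h1
      _ ≤ 9 * (5 * 10 ^ 9 * (L + k ^ 3)) := by linarith
      _ ≤ 10 ^ 11 * (L + k ^ 3) := by
          have : 0 ≤ L + k ^ 3 := by positivity
          linarith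
      _ ≤ _ := by gcongr
  · have hLpos : 0 < L := by linarith
    rw [div_le_div_iff₀ hLpos (by positivity)]
    calc 1 / 10 ^ 16 * (4 * (R : ℝ)) ≤ 1 / 10 ^ 16 * (4 * (2 * 10 ^ 4 * L)) := by gcongr
      _ ≤ 1 * L := by linarith
  · intro x hx
    have h1 := htr x hx
    have h2 : ∀ ψ ∈ Λ, ‖ψ x - 1‖ ≤ 1 / (216 * ((Λ.card : ℝ) + 1) ^ 3) := by
      intro ψ hψ
      refine (h1 ψ hψ).trans ?_
      have h3 : (216 : ℝ) * ((Λ.card : ℝ) + 1) ^ 3 ≤ 216 * (25 * 10 ^ 9 * L ^ 3) ^ 3 := by gcongr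
      have h4' : (10 ^ 4 * L) ^ 9 ≤ (R : ℝ) ^ (8 + 1) := by
        have h4 : (10 ^ 4 * L) ^ 9 ≤ (R : ℝ) ^ 9 := by gcongr
        exact h4
      have h5 : 2 * Real.pi * (216 * (25 * 10 ^ 9 * L ^ 3) ^ 3) ≤ 4 * (R : ℝ) ^ (8 + 1) := by
        have hpi : Real.pi ≤ 4 := Real.pi_le_four
        calc 2 * Real.pi * (216 * (25 * 10 ^ 9 * L ^ 3) ^ 3) ≤ 2 * 4 * (216 * (25 * 10 ^ 9 * L ^ 3) ^ 3) := by gcongr
          _ = 2 * 4 * 216 * 25 ^ 3 * 10 ^ 27 * L ^ 9 := by ring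
          _ ≤ 4 * (10 ^ 4 * L) ^ 9 := by
            have h8 : 0 ≤ L ^ 9 := by positivity
            have h9 : (10 ^ 4 * L) ^ 9 = 10 ^ 36 * L ^ 9 := by ring
            rw [h9]
            linarith
          _ ≤ _ := by gcongr
      have h6 : 2 * Real.pi * (216 * ((Λ.card : ℝ) + 1) ^ 3) ≤ 4 * (R : ℝ) ^ (8 + 1) := by
        refine le_trans ?_ h5
        gcongr
      have h7 : 2 * Real.pi * (1 / (4 * (R : ℝ) ^ (8 + 1))) = 2 * Real.pi / (4 * (R : ℝ) ^ (8 + 1)) := by ring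
      rw [h7, div_le_div_iff₀ (by positivity) (by positivity)]
      linarith
    obtain ⟨a₁, h₁, a₂, h₂, a₃, h₃, a₄, h₄, hxe⟩ := hmain x h2
    exact ⟨a₁, hBA h₁, a₂, hBA h₂, a₃, hBA h₃, a₄, hBA h₄, hxe⟩

end Pool.Agent.H952.BW
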