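import Pool.Agent.H952.BW.Stm

set_option autoImplicit false

namespace Pool.Agent.H952.BW

open Finset Pool.Agent.K4H60.BZ
open scoped Pointwise BigOperators ComplexConjugate

variable {G : Type*} [AddCommGroup G] [Fintype G] [DecidableEq G]

/-- T3a -/
theorem pow_nonneg_entries (M : Matrix G G ℝ) (hM : ∀ x y, 0 ≤ M x y) (k : ℕ) (x y : G) : 0 ≤ (M ^ k) x y := by
  induction k generalizing x y with
  | zero =>
    rw [pow_zero, Matrix.one_apply]
    split_ifs <;> norm_num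
  | succ k ih =>
    rw [pow_succ, Matrix.mul_apply]
    exact sum_nonneg fun z _ => mul_nonneg (ih x z) (hM z y)

/-- T3b -/
theorem pow_cs (L P Q : Matrix G G ℝ) (hL : ∀ x y, 0 ≤ L x y) (hP : ∀ x y, 0 ≤ P x y) (hQ : ∀ x y, 0 ≤ Q x y)
    (h : ∀ x y, L x y ^ 2 ≤ P x y * Q x y) (k : ℕ) (x y : G) : (L ^ k) x y ^ 2 ≤ (P ^ k) x y * (Q ^ k) x y := by
  induction k generalizing x y with
  | zero =>
    rw [pow_zero, pow_zero, pow_zero, Matrix.one_apply]
    split_ifs <;> norm_num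
  | succ k ih =>
    rw [pow_succ L, pow_succ P, pow_succ Q, Matrix.mul_apply, Matrix.mul_apply, Matrix.mul_apply]
    have hf : ∀ z, 0 ≤ (P ^ k) x z * P z y := fun z => mul_nonneg (pow_nonneg_entries P hP k x z) (hP z y)
    have hg : ∀ z, 0 ≤ (Q ^ k) x z * Q z y := fun z => mul_nonneg (pow_nonneg_entries Q hQ k x z) (hQ z y)
    have hr : ∀ z, 0 ≤ (L ^ k) x z * L z y := fun z => mul_nonneg (pow_nonneg_entries L hL k x z) (hL z y)
    have hle : ∀ z, ((L ^ k) x z * L z y) ^ 2 ≤ ((P ^ k) x z * P z y) * ((Q ^ k) x z * Q z y) := by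
      intro z
      calc ((L ^ k) x z * L z y) ^ 2 = (L ^ k) x z ^ 2 * L z y ^ 2 := by ring
        _ ≤ ((P ^ k) x z * (Q ^ k) x z) * (P z y * Q z y) :=
          mul_le_mul (ih x z) (h z y) (sq_nonneg _)
            (mul_nonneg (pow_nonneg_entries P hP k x z) (pow_nonneg_entries Q hQ k x z))
        _ = _ := by ring
    have h1 : ∑ z, (L ^ k) x z * L z y ≤
        ∑ z, Real.sqrt (((P ^ k) x z * P z y) * ((Q ^ k) x z * Q z y)) :=
      sum_le_sum fun z _ => Real.le_sqrt_of_sq_le (hle z)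
    have h2 : (∑ z, Real.sqrt (((P ^ k) x z * P z y) * ((Q ^ k) x z * Q z y))) ^ 2 ≤
        (∑ z, (P ^ k) x z * P z y) * ∑ z, (Q ^ k) x z * Q z y :=
      Finset.sum_sq_le_sum_mul_sum_of_sq_eq_mul univ (fun z _ => hf z) (fun z _ => hg z)
        (fun z _ => Real.sq_sqrt (mul_nonneg (hf z) (hg z)))
    have h3 : 0 ≤ ∑ z, (L ^ k) x z * L z y := sum_nonneg fun z _ => hr z
    exact (pow_le_pow_left₀ h3 h1 2).trans h2

/-- T3c -/
theorem pow_conj (L R : Matrix G G ℝ) (f : G → ℝ) (h : ∀ x y, L x y = R x y * Real.exp (f y - f x)) (k : ℕ)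
    (x y : G) : (L ^ k) x y = (R ^ k) x y * Real.exp (f y - f x) := by
  induction k generalizing x y with
  | zero =>
    rw [pow_zero, pow_zero, Matrix.one_apply]
    split_ifs with hxy
    · rw [hxy, sub_self, Real.exp_zero, mul_one]
    · rw [zero_mul]
  | succ k ih =>
    rw [pow_succ L, pow_succ R, Matrix.mul_apply, Matrix.mul_apply, sum_mul]
    refine sum_congr rfl fun z _ => ?_
    rw [ih x z, h z y]
    have h1 : Real.exp (f y - f x) = Real.exp (f z - f x) * Real.exp (f y - f z) := by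
      rw [← Real.exp_add]
      congr 1
      ring
    rw [h1]
    ring

/-- T3d -/
theorem pow_rowsum (P : Matrix G G ℝ) (hP : ∀ x y, 0 ≤ P x y) (E : ℝ) (hE : 0 ≤ E) (h : ∀ x, ∑ y, P x y ≤ E)
    (k : ℕ) (x : G) : ∑ y, (P ^ k) x y ≤ E ^ k := by
  induction k generalizing x with
  | zero =>
    rw [pow_zero, pow_zero]
    simp [Matrix.one_apply]
  | succ k ih =>
    rw [pow_succ P, pow_succ E]
    simp only [Matrix.mul_apply]
    rw [sum_comm]
    calc ∑ z, ∑ y, (P ^ k) x z * P z y = ∑ z, (P ^ k) x z * ∑ y, P z y :=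
          sum_congr rfl fun z _ => (mul_sum _ _ _).symm
      _ ≤ ∑ z, (P ^ k) x z * E :=
          sum_le_sum fun z _ => mul_le_mul_of_nonneg_left (h z) (pow_nonneg_entries P hP k x z)
      _ = (∑ z, (P ^ k) x z) * E := (sum_mul _ _ _).symm
      _ ≤ E ^ k * E := mul_le_mul_of_nonneg_right (ih x) hE

end Pool.Agent.H952.BW
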