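import Pool.Agent.H952.BW.RowP
import Pool.Agent.H952.BW.Adj
import Pool.Agent.H952.BW.Pow
import Pool.Agent.H952.BW.ChangMix
import Pool.Agent.H952.BW.Ent
import Pool.Agent.H952.BW.MainOf
import Pool.Agent.H952.BW.Eigen

/-!
# Concentration for the walk
-/

set_option autoImplicit false
set_option linter.unusedSectionVars false

namespace Pool.Agent.H952.BW

open Finset Pool.Agent.K4H60.BZ
open scoped Pointwise BigOperators ComplexConjugate

variable {G : Type*} [AddCommGroup G] [Fintype G] [DecidableEq G]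

theorem cw_nonneg (B : Finset G) {n : ℕ} (v : Fin n → G) (u : G) : 0 ≤ cw B v u := by
  unfold cw
  split_ifs
  · positivity
  · exact le_rfl

theorem RR_nonneg (B : Finset G) (n : ℕ) (x y : G) : 0 ≤ RR B n x y :=
  div_nonneg (sum_nonneg fun v _ => cw_nonneg B v _) (by positivity)

theorem PP_nonneg (B D : Finset G) (n : ℕ) (μ : ℝ) (x y : G) : 0 ≤ PP B D n μ x y :=
  div_nonneg (sum_nonneg fun v _ => mul_nonneg (cw_nonneg B v _) (Real.exp_pos _).le) (by positivity)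

theorem gg_nonneg (B D : Finset G) (z : G) : 0 ≤ gg B D z :=
  div_nonneg (sum_nonneg fun a _ => ind_nonneg _ _) (Nat.cast_nonneg _)

theorem gg_le_one (B D : Finset G) (z : G) : gg B D z ≤ 1 := by
  unfold gg
  apply div_le_one_of_le₀ _ (Nat.cast_nonneg _)
  calc ∑ a ∈ B, ind D (z - a) ≤ ∑ _a ∈ B, (1 : ℝ) := sum_le_sum fun a _ => ind_le_one _ _
    _ = _ := by simp

theorem mem_TT (B : Finset G) {n : ℕ} (v : Fin n → G) (t : G) : t ∈ TT B v ↔ ∀ i, v i - t ∈ B := by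
  unfold TT
  simp

theorem mem_PT (B : Finset G) {n : ℕ} (v : Fin n → G) : v ∈ PT B n ↔ ∀ i, v i ∈ B := by
  unfold PT
  rw [Fintype.mem_piFinset]

theorem zero_mem_TT (B : Finset G) {n : ℕ} (v : Fin n → G) (hv : v ∈ PT B n) : (0 : G) ∈ TT B v := by
  rw [mem_TT]
  intro i
  rw [sub_zero]
  exact (mem_PT B v).1 hv i

theorem card_PT (B : Finset G) (n : ℕ) : (PT B n).card = B.card ^ n := by
  unfold PT
  rw [Fintype.card_piFinset, prod_const, card_univ, Fintype.card_fin]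

theorem cw_sum (B : Finset G) {n : ℕ} (v : Fin n → G) (hv : v ∈ PT B n) (x : G) : ∑ y, cw B v (x - y) = 1 := by
  have h1 : ∑ y, cw B v (x - y) = ∑ u, cw B v u := Equiv.sum_comp (Equiv.subLeft x) (cw B v)
  rw [h1]
  unfold cw
  rw [sum_ite_mem, univ_inter, sum_const, nsmul_eq_mul, mul_one_div, div_self]
  have : 0 < (TT B v).card := card_pos.2 ⟨0, zero_mem_TT B v hv⟩
  positivity

theorem RR_row (B : Finset G) (hB : B.Nonempty) (n : ℕ) (x : G) : ∑ y, RR B n x y = 1 := by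
  have hBpos : (0 : ℝ) < B.card := by exact_mod_cast hB.card_pos
  unfold RR
  rw [← sum_div, sum_comm, sum_congr rfl fun v hv => cw_sum B v hv x, sum_const, card_PT, nsmul_eq_mul, mul_one]
  push_cast
  exact div_self (by positivity)

theorem conc (B D : Finset G) (hB : B.Nonempty) (n : ℕ) (hn : 0 < n) (k j : ℕ) (hj : j ≤ k) (X Y : Finset G)
    (μ : ℝ) (hμ : 0 ≤ μ) (d : ℝ) (h : ∀ x ∈ X, ∀ y ∈ Y, d ≤ gg B D x - gg B D y) :
    Real.exp (μ * d) * ∑ x ∈ X, ∑ y ∈ Y, (RR B n ^ j) x y ≤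
      Real.exp (2 * k * μ ^ 2 / n) * (√(X.card) * √(Y.card)) := by
  have hn' : (0 : ℝ) < n := by exact_mod_cast hn
  obtain ⟨E, hE⟩ : ∃ E : ℝ, E = Real.exp (2 * μ ^ 2 / n) := ⟨_, rfl⟩
  have hE1 : 1 ≤ E := by rw [hE]; exact Real.one_le_exp (by positivity)
  obtain ⟨L, hL⟩ : ∃ L : Matrix G G ℝ, L = fun x y => RR B n x y * Real.exp (-μ * gg B D y - -μ * gg B D x) :=
    ⟨_, rfl⟩
  obtain ⟨P, hP⟩ : ∃ P : Matrix G G ℝ, P = (PP B D n (2 * -μ)).transpose := ⟨_, rfl⟩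
  obtain ⟨Q, hQ⟩ : ∃ Q : Matrix G G ℝ, Q = PP B D n (-(2 * -μ)) := ⟨_, rfl⟩
  have hL0 : ∀ x y, 0 ≤ L x y := fun x y => by
    rw [hL]; exact mul_nonneg (RR_nonneg B n x y) (Real.exp_pos _).le
  have hP0 : ∀ x y, 0 ≤ P x y := fun x y => by rw [hP]; exact PP_nonneg _ _ _ _ _ _
  have hQ0 : ∀ x y, 0 ≤ Q x y := fun x y => by rw [hQ]; exact PP_nonneg _ _ _ _ _ _
  have hLPQ : ∀ x y, L x y ^ 2 ≤ P x y * Q x y := by
    intro x y
    have h1 := RR_tilt B D n (-μ) x y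
    rw [hL, hP, hQ]
    rw [mul_sub] at h1
    exact h1
  have hcs := pow_cs L P Q hL0 hP0 hQ0 hLPQ j
  have hconj := pow_conj L (RR B n) (fun z => -μ * gg B D z) (fun x y => by rw [hL]) j
  have hPj0 := pow_nonneg_entries P hP0 j
  have hQj0 := pow_nonneg_entries Q hQ0 j
  have hRj0 := pow_nonneg_entries (RR B n) (RR_nonneg B n) j
  -- pointwise bound
  have hpt : ∀ x ∈ X, ∀ y ∈ Y, Real.exp (μ * d) * (RR B n ^ j) x y ≤ √((P ^ j) x y) * √((Q ^ j) x y) := by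
    intro x hx y hy
    have h1 : Real.exp (μ * d) * (RR B n ^ j) x y ≤ (L ^ j) x y := by
      rw [hconj x y, mul_comm]
      apply mul_le_mul_of_nonneg_left _ (hRj0 x y)
      apply Real.exp_le_exp.2
      have := mul_le_mul_of_nonneg_left (h x hx y hy) hμ
      linarith
    refine h1.trans ?_
    rw [← Real.sqrt_mul (hPj0 x y)]
    exact Real.le_sqrt_of_sq_le (hcs x y)
  -- row sums
  have hrow : ∀ μ' : ℝ, μ' ^ 2 = 4 * μ ^ 2 → ∀ x, ∑ y, (PP B D n μ' ^ j) x y ≤ E ^ k := by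
    intro μ' hμ' x
    have h1 : ∀ x, ∑ y, PP B D n μ' x y ≤ E := by
      intro x
      refine (rowP B D hB n hn μ' x).trans (le_of_eq ?_)
      rw [hE, hμ']
      congr 1
      field_simp
      ring
    refine (pow_rowsum _ (PP_nonneg B D n μ') E (by linarith) h1 j x).trans ?_
    exact pow_le_pow_right₀ hE1 hj
  have hsumQ : ∑ x ∈ X, ∑ y ∈ Y, (Q ^ j) x y ≤ X.card * E ^ k := by
    calc _ ≤ ∑ x ∈ X, E ^ k := by
          apply sum_le_sum
          intro x _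
          refine (sum_le_sum_of_subset_of_nonneg (subset_univ Y) fun y _ _ => hQj0 x y).trans ?_
          rw [hQ]
          exact hrow _ (by ring) x
      _ = _ := by rw [sum_const, nsmul_eq_mul]
  have hsumP : ∑ x ∈ X, ∑ y ∈ Y, (P ^ j) x y ≤ Y.card * E ^ k := by
    calc ∑ x ∈ X, ∑ y ∈ Y, (P ^ j) x y = ∑ y ∈ Y, ∑ x ∈ X, (P ^ j) x y := Finset.sum_comm
      _ ≤ ∑ y ∈ Y, E ^ k := by
          apply sum_le_sum
          intro y _
          refine (sum_le_sum_of_subset_of_nonneg (subset_univ X) fun x _ _ => hPj0 x y).trans ?_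
          have e1 : ∀ x, (P ^ j) x y = (PP B D n (2 * -μ) ^ j) y x := by
            intro x
            rw [hP, ← Matrix.transpose_pow, Matrix.transpose_apply]
          simp_rw [e1]
          exact hrow _ (by ring) y
      _ = _ := by rw [sum_const, nsmul_eq_mul]
  have hcs2 : ∑ x ∈ X, ∑ y ∈ Y, √((P ^ j) x y) * √((Q ^ j) x y) ≤
      √(∑ x ∈ X, ∑ y ∈ Y, (P ^ j) x y) * √(∑ x ∈ X, ∑ y ∈ Y, (Q ^ j) x y) := by
    have h1 := Real.sum_sqrt_mul_sqrt_le (X ×ˢ Y) (f := fun p => (P ^ j) p.1 p.2) (g := fun p => (Q ^ j) p.1 p.2)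
      (fun p => hPj0 p.1 p.2) (fun p => hQj0 p.1 p.2)
    rw [sum_product, sum_product, sum_product] at h1
    exact h1
  have hEk : E ^ k = Real.exp (2 * k * μ ^ 2 / n) := by
    rw [hE, ← Real.exp_nat_mul]
    congr 1
    ring
  calc Real.exp (μ * d) * ∑ x ∈ X, ∑ y ∈ Y, (RR B n ^ j) x y
      = ∑ x ∈ X, ∑ y ∈ Y, Real.exp (μ * d) * (RR B n ^ j) x y := by
        rw [mul_sum]
        apply sum_congr rfl
        intro x _
        rw [mul_sum]
    _ ≤ ∑ x ∈ X, ∑ y ∈ Y, √((P ^ j) x y) * √((Q ^ j) x y) :=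
        sum_le_sum fun x hx => sum_le_sum fun y hy => hpt x hx y hy
    _ ≤ _ := hcs2
    _ ≤ √(Y.card * E ^ k) * √(X.card * E ^ k) := by
        gcongr
    _ = E ^ k * (√(X.card) * √(Y.card)) := by
        have hEk0 : 0 ≤ E ^ k := by positivity
        rw [Real.sqrt_mul (Nat.cast_nonneg _), Real.sqrt_mul (Nat.cast_nonneg _)]
        have := Real.mul_self_sqrt hEk0
        calc √(Y.card : ℝ) * √(E ^ k) * (√(X.card : ℝ) * √(E ^ k))
            = (√(E ^ k) * √(E ^ k)) * (√(X.card : ℝ) * √(Y.card : ℝ)) := by ring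
          _ = _ := by rw [this]
    _ = _ := by rw [hEk]

end Pool.Agent.H952.BW
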