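import Pool.Agent.H952.BW.Exit

/-!
# From the walk to the Bohr set
-/

set_option autoImplicit false
set_option linter.unusedSectionVars false

namespace Pool.Agent.H952.BW

open Finset Pool.Agent.K4H60.BZ
open scoped Pointwise BigOperators ComplexConjugate

variable {G : Type*} [AddCommGroup G] [Fintype G] [DecidableEq G]

theorem eigen_pow (B : Finset G) (n : ℕ) (ψ : AddChar G ℂ) (k : ℕ) (x : G) :
    ∑ y, (((RR B n ^ k) x y : ℝ) : ℂ) * ψ y = cc B n ψ ^ k * ψ x := by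
  induction k generalizing x with
  | zero =>
    rw [pow_zero, pow_zero, one_mul, Finset.sum_eq_single x]
    · rw [Matrix.one_apply_eq]
      simp
    · intro y _ hy
      rw [Matrix.one_apply_ne hy.symm]
      simp
    · intro h
      exact absurd (mem_univ x) h
  | succ k ih =>
    calc ∑ y, (((RR B n ^ (k + 1)) x y : ℝ) : ℂ) * ψ y
        = ∑ y, ∑ z, ((RR B n x z : ℝ) : ℂ) * ((((RR B n ^ k) z y : ℝ) : ℂ) * ψ y) := by
          apply sum_congr rfl
          intro y _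
          rw [pow_succ', Matrix.mul_apply]
          push_cast
          rw [sum_mul]
          apply sum_congr rfl
          intro z _
          ring
      _ = ∑ z, ∑ y, ((RR B n x z : ℝ) : ℂ) * ((((RR B n ^ k) z y : ℝ) : ℂ) * ψ y) := Finset.sum_comm
      _ = ∑ z, ((RR B n x z : ℝ) : ℂ) * (cc B n ψ ^ k * ψ z) := by
          apply sum_congr rfl
          intro z _
          rw [← mul_sum, ih z]
      _ = cc B n ψ ^ k * ∑ z, ((RR B n x z : ℝ) : ℂ) * ψ z := by
          rw [mul_sum]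
          apply sum_congr rfl
          intro z _
          ring
      _ = _ := by
          rw [eigen]
          ring

theorem gg_expand (B D : Finset G) (w : G) :
    ((gg B D w : ℝ) : ℂ) = ∑ ψ : AddChar G ℂ,
      (((∑ u ∈ D, conj (ψ u)) / Fintype.card G) * (∑ b ∈ B, conj (ψ b)) / (B.card : ℂ)) * ψ w := by
  unfold gg
  push_cast
  simp_rw [ind_expand]
  rw [sum_div]
  calc ∑ b ∈ B, (∑ ψ : AddChar G ℂ, ((∑ u ∈ D, conj (ψ u)) / Fintype.card G) * ψ (w - b)) / (B.card : ℂ)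
      = ∑ b ∈ B, ∑ ψ : AddChar G ℂ, ((∑ u ∈ D, conj (ψ u)) / Fintype.card G) * ψ (w - b) / (B.card : ℂ) := by
        apply sum_congr rfl
        intro b _
        rw [sum_div]
    _ = ∑ ψ : AddChar G ℂ, ∑ b ∈ B, ((∑ u ∈ D, conj (ψ u)) / Fintype.card G) * ψ (w - b) / (B.card : ℂ) :=
        Finset.sum_comm
    _ = _ := by
        apply sum_congr rfl
        intro ψ _
        have e1 : ∀ b ∈ B, ((∑ u ∈ D, conj (ψ u)) / Fintype.card G) * ψ (w - b) / (B.card : ℂ) =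
            (((∑ u ∈ D, conj (ψ u)) / Fintype.card G) / (B.card : ℂ) * ψ w) * conj (ψ b) := by
          intro b _
          rw [sub_eq_add_neg, AddChar.map_add_eq_mul, AddChar.map_neg_eq_conj]
          ring
        rw [sum_congr rfl e1, ← mul_sum]
        ring

theorem core2 (B : Finset G) (hB : B.Nonempty) (n k : ℕ) (hk : 32 * ((B - B).card : ℝ) ≤ 2 ^ k * B.card)
    (hmean : 3 / 4 * (B.card : ℝ) ≤ ∑ x ∈ B, ∑ y, (RR B n ^ k) x y * gg B (B - B) y) :
    ∃ Λ : Finset (AddChar G ℂ), (Λ.card : ℝ) ≤ 8 * HH B n ∧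
      ∀ x : G, (∀ ψ ∈ Λ, ‖ψ x - 1‖ ≤ 1 / (216 * ((Λ.card : ℝ) + 1) ^ 3)) →
        ∃ a₁ ∈ B, ∃ a₂ ∈ B, ∃ a₃ ∈ B, ∃ a₄ ∈ B, x = a₁ + a₂ - a₃ - a₄ := by
  classical
  have hBpos : (0 : ℝ) < B.card := by exact_mod_cast hB.card_pos
  have hGpos : (0 : ℝ) < Fintype.card G := by exact_mod_cast Fintype.card_pos
  have hRk0 := pow_nonneg_entries (RR B n) (RR_nonneg B n) k
  have hRk1 : ∀ x, ∑ y, (RR B n ^ k) x y ≤ 1 := by
    intro x
    have := pow_rowsum (RR B n) (RR_nonneg B n) 1 zero_le_one (fun x => (RR_row B hB n x).le) k x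
    rwa [one_pow] at this
  have hHH : 0 ≤ 8 * HH B n := by
    unfold HH
    have : 0 ≤ ∑ v ∈ PT B n, Real.log (Fintype.card G / (TT B v).card) := by
      apply sum_nonneg
      intro v hv
      apply Real.log_nonneg
      have h1 : 0 < (TT B v).card := card_pos.2 ⟨0, zero_mem_TT B v hv⟩
      have h2 : (0 : ℝ) < (TT B v).card := by exact_mod_cast h1
      rw [one_le_div h2]
      exact_mod_cast card_le_univ (TT B v)
    positivity
  -- the spectrum
  obtain ⟨Λ, _, hcard, hsub⟩ := Finset.exists_subset_addSpan_card_le_of_forall_addDissociated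
    (s := univ.filter fun ψ : AddChar G ℂ => (1 / 2 : ℝ) ≤ ‖cc B n ψ‖)
    (d := ⌊8 * HH B n⌋₊) (by
      intro s' hs' hdis
      apply Nat.le_floor
      apply chang_mix B hB n s' hdis
      intro ψ hψ
      exact (mem_filter.1 (hs' hψ)).2)
  have hspan : ∀ ψ : AddChar G ℂ, (1 / 2 : ℝ) ≤ ‖cc B n ψ‖ →
      ∃ ε : AddChar G ℂ → ℤ, (∀ a, |ε a| ≤ 1) ∧ ψ = ∑ a ∈ Λ, ε a • a := by
    intro ψ hψ
    have := hsub (mem_filter.2 ⟨mem_univ _, hψ⟩)
    rw [mem_addSpan] at this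
    obtain ⟨ε, hε, he⟩ := this
    refine ⟨ε, ?_, he.symm⟩
    intro a
    rcases hε a with h | h | h <;> rw [h] <;> simp
  refine ⟨Λ, (Nat.cast_le.2 hcard).trans (Nat.floor_le hHH), ?_⟩
  intro x hx
  obtain ⟨hR, hhR⟩ : ∃ hR : G → ℝ, hR = fun z => (∑ a ∈ B, ∑ y, (RR B n ^ k) a y * gg B (B - B) (y + z)) / B.card :=
    ⟨_, rfl⟩
  have hR0 : ∀ y, 0 ≤ hR y := by
    intro z
    rw [hhR]
    exact div_nonneg (sum_nonneg fun a _ => sum_nonneg fun y _ => mul_nonneg (hRk0 a y) (gg_nonneg _ _ _))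
      (Nat.cast_nonneg _)
  have hR1 : ∀ y, hR y ≤ 1 := by
    intro z
    rw [hhR]
    apply div_le_one_of_le₀ _ (Nat.cast_nonneg _)
    calc ∑ a ∈ B, ∑ y, (RR B n ^ k) a y * gg B (B - B) (y + z) ≤ ∑ _a ∈ B, (1 : ℝ) := by
          apply sum_le_sum
          intro a _
          refine le_trans (sum_le_sum fun y _ => ?_) (hRk1 a)
          exact mul_le_of_le_one_right (hRk0 a y) (gg_le_one _ _ _)
      _ = _ := by simp
  have hRzero : 3 / 4 ≤ hR 0 := by
    rw [hhR]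
    simp only [add_zero]
    rw [le_div_iff₀ hBpos]
    exact hmean
  -- Fourier coefficients
  obtain ⟨co, hco⟩ : ∃ co : AddChar G ℂ → ℂ, co = fun ψ =>
    ((∑ u ∈ (B - B), conj (ψ u)) / Fintype.card G) * (∑ b ∈ B, conj (ψ b)) / (B.card : ℂ) *
      (cc B n ψ ^ k * ∑ a ∈ B, ψ a) / (B.card : ℂ) := ⟨_, rfl⟩
  have hexp : ∀ z, ((hR z : ℝ) : ℂ) = ∑ ψ, co ψ * ψ z := by
    intro z
    rw [hhR, hco]
    push_cast
    simp_rw [gg_expand]
    have e1 : ∀ a ∈ B, ∑ y, (((RR B n ^ k) a y : ℝ) : ℂ) * ∑ ψ : AddChar G ℂ,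
        (((∑ u ∈ (B - B), conj (ψ u)) / Fintype.card G) * (∑ b ∈ B, conj (ψ b)) / (B.card : ℂ)) * ψ (y + z) =
        ∑ ψ : AddChar G ℂ, (((∑ u ∈ (B - B), conj (ψ u)) / Fintype.card G) * (∑ b ∈ B, conj (ψ b)) / (B.card : ℂ)) *
          (cc B n ψ ^ k * ψ a) * ψ z := by
      intro a _
      calc _ = ∑ y, ∑ ψ : AddChar G ℂ,
          (((∑ u ∈ (B - B), conj (ψ u)) / Fintype.card G) * (∑ b ∈ B, conj (ψ b)) / (B.card : ℂ)) * ψ z *
            ((((RR B n ^ k) a y : ℝ) : ℂ) * ψ y) := by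
            apply sum_congr rfl
            intro y _
            rw [mul_sum]
            apply sum_congr rfl
            intro ψ _
            rw [AddChar.map_add_eq_mul]
            ring
        _ = ∑ ψ : AddChar G ℂ, ∑ y,
          (((∑ u ∈ (B - B), conj (ψ u)) / Fintype.card G) * (∑ b ∈ B, conj (ψ b)) / (B.card : ℂ)) * ψ z *
            ((((RR B n ^ k) a y : ℝ) : ℂ) * ψ y) := Finset.sum_comm
        _ = _ := by
            apply sum_congr rfl
            intro ψ _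
            rw [← mul_sum, eigen_pow]
            ring
    rw [sum_congr rfl e1, Finset.sum_comm, sum_div]
    apply sum_congr rfl
    intro ψ _
    have e2 : ∀ a ∈ B, (((∑ u ∈ (B - B), conj (ψ u)) / Fintype.card G) * (∑ b ∈ B, conj (ψ b)) / (B.card : ℂ)) *
          (cc B n ψ ^ k * ψ a) * ψ z =
        ((((∑ u ∈ (B - B), conj (ψ u)) / Fintype.card G) * (∑ b ∈ B, conj (ψ b)) / (B.card : ℂ)) *
          cc B n ψ ^ k * ψ z) * ψ a := by
      intro a _
      ring
    rw [sum_congr rfl e2, ← mul_sum]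
    ring
  -- the set S
  obtain ⟨S, hS⟩ : ∃ S : Set (AddChar G ℂ), S = {ψ | (1 / 2 : ℝ) ≤ ‖cc B n ψ‖} := ⟨_, rfl⟩
  have hmass : ∑ ψ ∈ univ.filter (fun ψ => ψ ∉ S), ‖co ψ‖ ≤ 1 / 32 := by
    have e1 : ∀ ψ ∈ univ.filter (fun ψ => ψ ∉ S), ‖co ψ‖ ≤
        (((B - B).card : ℝ) / (Fintype.card G * (B.card : ℝ) ^ 2 * 2 ^ k)) * ‖∑ a ∈ B, ψ a‖ ^ 2 := by
      intro ψ hψ
      rw [mem_filter, hS] at hψ
      have hψ2 : ‖cc B n ψ‖ ≤ 1 / 2 := by
        by_contra hcon
        exact hψ.2 (le_of_lt (not_le.1 hcon))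
      have f1 : ‖∑ w ∈ (B - B), conj (ψ w)‖ ≤ ((B - B).card : ℝ) := by
        refine (norm_sum_le _ _).trans (le_of_eq ?_)
        simp [AddChar.norm_apply]
      have f2 : ‖cc B n ψ‖ ^ k ≤ 1 / 2 ^ k := by
        calc ‖cc B n ψ‖ ^ k ≤ (1 / 2) ^ k := by gcongr
          _ = _ := by rw [div_pow, one_pow]
      have f3 : ‖∑ b ∈ B, conj (ψ b)‖ = ‖∑ b ∈ B, ψ b‖ := by
        rw [← map_sum (starRingEnd ℂ), RCLike.norm_conj]
      rw [hco]
      simp only [norm_div, norm_mul, norm_pow, Complex.norm_natCast]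
      rw [f3]
      calc ‖∑ w ∈ (B - B), conj (ψ w)‖ / (Fintype.card G : ℝ) * ‖∑ b ∈ B, ψ b‖ / (B.card : ℝ) *
            (‖cc B n ψ‖ ^ k * ‖∑ a ∈ B, ψ a‖) / (B.card : ℝ)
          ≤ ((B - B).card : ℝ) / (Fintype.card G : ℝ) * ‖∑ b ∈ B, ψ b‖ / (B.card : ℝ) *
            (1 / 2 ^ k * ‖∑ a ∈ B, ψ a‖) / (B.card : ℝ) := by gcongr
        _ = _ := by
          field_simp
    refine (sum_le_sum e1).trans ?_
    calc _ ≤ ∑ ψ : AddChar G ℂ, (((B - B).card : ℝ) / (Fintype.card G * (B.card : ℝ) ^ 2 * 2 ^ k)) * ‖∑ a ∈ B, ψ a‖ ^ 2 :=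
          sum_le_sum_of_subset_of_nonneg (subset_univ _) fun ψ _ _ => by positivity
      _ = ((B - B).card : ℝ) / (B.card * 2 ^ k) := by
          rw [← mul_sum, parseval_set]
          field_simp
      _ ≤ 1 / 32 := by
          rw [div_le_div_iff₀ (by positivity) (by norm_num)]
          linarith
  -- the kernel
  obtain ⟨t, ht, hslow⟩ := exists_slow Λ
  obtain ⟨δ, hδ⟩ : ∃ δ : ℝ, δ = 1 / (216 * ((Λ.card : ℝ) + 1) ^ 3) := ⟨_, rfl⟩
  rw [← hδ] at hx
  have hδ0 : 0 ≤ δ := by rw [hδ]; positivity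
  have hbound : ∀ s ≤ t + 1, ∀ q ∈ QQ Λ s, ‖q x - 1‖ ≤ 1 / 24 := by
    intro s hs q hq
    refine (QQ_bound Λ s x δ hδ0 hx q hq).trans ?_
    have h1 : (s : ℝ) ≤ 9 * ((Λ.card : ℝ) + 1) ^ 2 := by
      have : s ≤ 9 * (Λ.card + 1) ^ 2 := by
        have : 1 ≤ (Λ.card + 1) ^ 2 := Nat.one_le_pow _ _ (by omega)
        omega
      exact_mod_cast this
    have h2 : (Λ.card : ℝ) ≤ (Λ.card : ℝ) + 1 := by linarith
    calc (Λ.card : ℝ) * (s * δ) ≤ ((Λ.card : ℝ) + 1) * ((9 * ((Λ.card : ℝ) + 1) ^ 2) * δ) := by gcongr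
      _ = 1 / 24 := by
        rw [hδ]
        field_simp
        norm_num
  have hker := kernel (fun y => ((hR y : ℝ) : ℂ)) co hexp (by
      intro y
      rw [Complex.norm_real, Real.norm_eq_abs, abs_of_nonneg (hR0 y)]
      exact hR1 y) S (QQ Λ t) (QQ Λ (t + 1)) (QQ_nonempty Λ t) hslow (by
      intro ψ hψ q hq
      rw [hS] at hψ
      obtain ⟨ε, hε, he⟩ := hspan ψ hψ
      rw [he]
      exact add_mem_QQ Λ t ε hε q hq) x (1 / 24) (by norm_num)
      (fun q hq => hbound t (by omega) q hq) (fun q hq => hbound (t + 1) le_rfl q hq)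
  have hRx : 1 / 2 < hR x := by
    have e1 : ((hR x : ℝ) : ℂ) - ((hR 0 : ℝ) : ℂ) = ((hR x - hR 0 : ℝ) : ℂ) := by push_cast; rfl
    rw [e1, Complex.norm_real, Real.norm_eq_abs] at hker
    have h1 := abs_le.1 (hker.trans (add_le_add (mul_le_mul_of_nonneg_left hmass (by norm_num)) le_rfl))
    linarith [h1.1]
  -- conclusion
  have hfin : ∃ y : G, ∃ b ∈ B, y - b ∈ B - B ∧ y + x - b ∈ B - B := by
    by_contra hcon
    push Not at hcon
    have h1 : ∀ y, gg B (B - B) (y + 0) + gg B (B - B) (y + x) ≤ 1 := by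
      intro y
      unfold gg
      rw [← add_div, ← sum_add_distrib, div_le_one hBpos]
      calc _ ≤ ∑ b ∈ B, (1 : ℝ) := by
            apply sum_le_sum
            intro b hb
            rw [add_zero]
            unfold ind
            by_cases h : y - b ∈ B - B
            · rw [if_pos h, if_neg (hcon y b hb h)]
              norm_num
            · rw [if_neg h]
              split_ifs <;> norm_num
        _ = _ := by simp
    have h2 : hR 0 + hR x ≤ 1 := by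
      rw [hhR]
      simp only
      rw [← add_div, ← sum_add_distrib, div_le_one hBpos]
      calc _ ≤ ∑ a ∈ B, (1 : ℝ) := by
            apply sum_le_sum
            intro a _
            rw [← sum_add_distrib]
            refine le_trans (sum_le_sum fun y _ => ?_) (hRk1 a)
            rw [← mul_add]
            exact mul_le_of_le_one_right (hRk0 a y) (h1 y)
        _ = _ := by simp
    linarith
  obtain ⟨y, b, hb, h1, h2⟩ := hfin
  rw [mem_sub] at h1 h2
  obtain ⟨a, ha, b', hb', hab⟩ := h1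
  obtain ⟨c, hc, d, hd, hcd⟩ := h2
  refine ⟨c, hc, b', hb', d, hd, a, ha, ?_⟩
  have : x = (y + x - b) - (y - b) := by abel
  rw [this, ← hcd, ← hab]
  abel

end Pool.Agent.H952.BW
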