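import Pool.Agent.H952.BW.Conc

/-!
# The walk started from a random element of `B` stays in `{g ≥ 7/8}`
-/

set_option autoImplicit false
set_option linter.unusedSectionVars false

namespace Pool.Agent.H952.BW

open Finset Pool.Agent.K4H60.BZ
open scoped Pointwise BigOperators ComplexConjugate

variable {G : Type*} [AddCommGroup G] [Fintype G] [DecidableEq G]

theorem gg_self (B : Finset G) (hB : B.Nonempty) (x : G) (hx : x ∈ B) : gg B (B - B) x = 1 := by
  have hBpos : (0 : ℝ) < B.card := by exact_mod_cast hB.card_pos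
  unfold gg
  have h1 : ∀ b ∈ B, ind (B - B) (x - b) = 1 := by
    intro b hb
    unfold ind
    rw [if_pos (sub_mem_sub hx hb)]
  rw [sum_congr rfl h1, sum_const, nsmul_eq_mul, mul_one, div_self hBpos.ne']

theorem gg_pos (B : Finset G) (x : G) (hx : 0 < gg B (B - B) x) :
    ∃ b ∈ B, ∃ c ∈ B, ∃ d ∈ B, x = b + c - d := by
  by_contra hcon
  push Not at hcon
  have h1 : gg B (B - B) x = 0 := by
    unfold gg
    rw [sum_eq_zero, zero_div]
    intro b hb
    unfold ind
    rw [if_neg]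
    intro h
    rw [mem_sub] at h
    obtain ⟨c, hc, d, hd, he⟩ := h
    exact hcon b hb c hc d hd (by rw [add_sub_assoc, he]; abel)
  rw [h1] at hx
  exact lt_irrefl _ hx

theorem RR_supp (B : Finset G) (n : ℕ) (hn : 0 < n) (x y : G) (h : RR B n x y ≠ 0) :
    ∃ b ∈ B, ∃ c ∈ B, x - y = b - c := by
  by_contra hcon
  push Not at hcon
  apply h
  unfold RR
  rw [sum_eq_zero, zero_div]
  intro v hv
  unfold cw
  rw [if_neg]
  intro ht
  rw [mem_TT] at ht
  rw [mem_PT] at hv
  exact hcon (v ⟨0, hn⟩) (hv _) _ (ht ⟨0, hn⟩) (by abel)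

/-- the sets which the walk can reach from `{g > 0}` in one step -/
def S5 (B : Finset G) : Finset G := 3 • B - 2 • B

theorem mem_S5 (B : Finset G) (x y : G) (hx : 0 < gg B (B - B) x) (n : ℕ) (hn : 0 < n) (h : RR B n x y ≠ 0) :
    y ∈ S5 B := by
  obtain ⟨b, hb, c, hc, d, hd, h1⟩ := gg_pos B x hx
  obtain ⟨e, he, f, hf, h2⟩ := RR_supp B n hn x y h
  unfold S5
  rw [mem_sub]
  refine ⟨b + c + f, ?_, d + e, ?_, ?_⟩
  · rw [show (3 : ℕ) = 2 + 1 from rfl, succ_nsmul, two_nsmul]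
    exact add_mem_add (add_mem_add hb hc) hf
  · rw [two_nsmul]
    exact add_mem_add hd he
  · have h3 : y = x - (x - y) := by abel
    rw [h3, h2, h1]
    abel

theorem stay (B : Finset G) (hB : B.Nonempty) (n : ℕ) (hn : 0 < n) (k : ℕ) (δ : ℝ)
    (hδ : ∀ j ≤ k, ∀ Y ⊆ S5 B, (∀ y ∈ Y, gg B (B - B) y ≤ 7 / 8) →
      ∑ x ∈ B, ∑ y ∈ Y, (RR B n ^ j) x y ≤ δ * B.card) (j : ℕ) (hj : j ≤ k) :
    ∃ ρ : G → ℝ, (∀ y, 0 ≤ ρ y) ∧ (∀ y, ρ y ≤ ∑ x ∈ B, (RR B n ^ j) x y) ∧
      (∀ y, ρ y ≠ 0 → 7 / 8 ≤ gg B (B - B) y) ∧ (1 - j * δ) * B.card ≤ ∑ y, ρ y := by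
  have hRj0 := pow_nonneg_entries (RR B n) (RR_nonneg B n)
  induction j with
  | zero =>
    refine ⟨fun y => if y ∈ B then 1 else 0, ?_, ?_, ?_, ?_⟩
    · intro y
      simp only
      split_ifs <;> norm_num
    · intro y
      simp only
      split_ifs with h
      · refine le_trans ?_ (single_le_sum (f := fun x => (RR B n ^ 0) x y) (fun x _ => hRj0 0 x y) h)
        simp
      · exact sum_nonneg fun x _ => hRj0 0 x y
    · intro y hy
      simp only at hy
      have : y ∈ B := by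
        by_contra hcon
        exact hy (if_neg hcon)
      rw [gg_self B hB y this]
      norm_num
    · simp
  | succ j ih =>
    obtain ⟨ρ, h0, h1, h2, h3⟩ := ih (by omega)
    obtain ⟨σ, hσ⟩ : ∃ σ : G → ℝ, σ = fun y => ∑ x, ρ x * RR B n x y := ⟨_, rfl⟩
    have hσ0 : ∀ y, 0 ≤ σ y := by
      intro y
      rw [hσ]
      exact sum_nonneg fun x _ => mul_nonneg (h0 x) (RR_nonneg B n x y)
    have hσ1 : ∀ y, σ y ≤ ∑ x ∈ B, (RR B n ^ (j + 1)) x y := by
      intro y
      rw [hσ]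
      simp only
      calc ∑ x, ρ x * RR B n x y ≤ ∑ x, (∑ z ∈ B, (RR B n ^ j) z x) * RR B n x y :=
            sum_le_sum fun x _ => mul_le_mul_of_nonneg_right (h1 x) (RR_nonneg B n x y)
        _ = ∑ x, ∑ z ∈ B, (RR B n ^ j) z x * RR B n x y := by
            apply sum_congr rfl
            intro x _
            rw [sum_mul]
        _ = ∑ z ∈ B, ∑ x, (RR B n ^ j) z x * RR B n x y := Finset.sum_comm
        _ = _ := by
            apply sum_congr rfl
            intro z _
            rw [pow_succ, Matrix.mul_apply]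
    have hσmass : ∑ y, σ y = ∑ y, ρ y := by
      rw [hσ]
      simp only
      calc ∑ y, ∑ x, ρ x * RR B n x y = ∑ x, ∑ y, ρ x * RR B n x y := Finset.sum_comm
        _ = ∑ x, ρ x := by
            apply sum_congr rfl
            intro x _
            rw [← mul_sum, RR_row B hB n x, mul_one]
    have hσsupp : ∀ y, σ y ≠ 0 → y ∈ S5 B := by
      intro y hy
      rw [hσ] at hy
      obtain ⟨x, _, hx⟩ := exists_ne_zero_of_sum_ne_zero hy
      have hx1 : ρ x ≠ 0 := left_ne_zero_of_mul hx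
      have hx2 : RR B n x y ≠ 0 := right_ne_zero_of_mul hx
      have := h2 x hx1
      exact mem_S5 B x y (by linarith) n hn hx2
    refine ⟨fun y => if 7 / 8 ≤ gg B (B - B) y then σ y else 0, ?_, ?_, ?_, ?_⟩
    · intro y
      simp only
      split_ifs
      · exact hσ0 y
      · exact le_rfl
    · intro y
      simp only
      split_ifs
      · exact hσ1 y
      · exact (hσ0 y).trans (hσ1 y)
    · intro y hy
      simp only at hy
      by_contra hcon
      exact hy (if_neg hcon)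
    · obtain ⟨Y, hY⟩ : ∃ Y : Finset G, Y = (S5 B).filter fun y => ¬ (7 / 8 ≤ gg B (B - B) y) := ⟨_, rfl⟩
      have hloss : ∑ y ∈ Y, σ y ≤ δ * B.card := by
        have h4 := hδ (j + 1) hj Y (by rw [hY]; exact filter_subset _ _) (by
          intro y hy
          rw [hY, mem_filter] at hy
          exact (not_le.1 hy.2).le)
        refine le_trans ?_ h4
        calc ∑ y ∈ Y, σ y ≤ ∑ y ∈ Y, ∑ x ∈ B, (RR B n ^ (j + 1)) x y := sum_le_sum fun y _ => hσ1 y
          _ = _ := Finset.sum_comm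
      have hsplit : ∑ y, σ y ≤ ∑ y, (if 7 / 8 ≤ gg B (B - B) y then σ y else 0) + ∑ y ∈ Y, σ y := by
        have e1 : ∑ y ∈ Y, σ y = ∑ y, if y ∈ Y then σ y else 0 := by
          rw [sum_ite_mem, univ_inter]
        rw [e1, ← sum_add_distrib]
        apply sum_le_sum
        intro y _
        by_cases h5 : 7 / 8 ≤ gg B (B - B) y
        · rw [if_pos h5]
          split_ifs
          · linarith [hσ0 y]
          · linarith
        · rw [if_neg h5, zero_add]
          by_cases h6 : σ y = 0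
          · rw [h6]; split_ifs <;> exact le_rfl
          · rw [if_pos]
            rw [hY, mem_filter]
            exact ⟨hσsupp y h6, h5⟩
      rw [hσmass] at hsplit
      push_cast
      nlinarith [h3, hloss, hsplit]

/-- after `k` steps the mean of `g` is still at least `3/4` -/
theorem mean_after (B : Finset G) (hB : B.Nonempty) (n : ℕ) (hn : 0 < n) (k : ℕ) (δ : ℝ) (hkδ : k * δ ≤ 1 / 8)
    (hδ : ∀ j ≤ k, ∀ Y ⊆ S5 B, (∀ y ∈ Y, gg B (B - B) y ≤ 7 / 8) →
      ∑ x ∈ B, ∑ y ∈ Y, (RR B n ^ j) x y ≤ δ * B.card) :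
    3 / 4 * (B.card : ℝ) ≤ ∑ x ∈ B, ∑ y, (RR B n ^ k) x y * gg B (B - B) y := by
  have hBpos : (0 : ℝ) < B.card := by exact_mod_cast hB.card_pos
  obtain ⟨ρ, h0, h1, h2, h3⟩ := stay B hB n hn k δ hδ k le_rfl
  calc 3 / 4 * (B.card : ℝ) ≤ 7 / 8 * ((1 - k * δ) * B.card) := by nlinarith
    _ ≤ 7 / 8 * ∑ y, ρ y := by gcongr
    _ = ∑ y, ρ y * (7 / 8) := by rw [mul_sum]; exact sum_congr rfl fun y _ => mul_comm _ _
    _ ≤ ∑ y, ρ y * gg B (B - B) y := by
        apply sum_le_sum
        intro y _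
        by_cases h : ρ y = 0
        · rw [h, zero_mul, zero_mul]
        · exact mul_le_mul_of_nonneg_left (h2 y h) (h0 y)
    _ ≤ ∑ y, (∑ x ∈ B, (RR B n ^ k) x y) * gg B (B - B) y :=
        sum_le_sum fun y _ => mul_le_mul_of_nonneg_right (h1 y) (gg_nonneg _ _ _)
    _ = ∑ y, ∑ x ∈ B, (RR B n ^ k) x y * gg B (B - B) y := by
        apply sum_congr rfl
        intro y _
        rw [sum_mul]
    _ = _ := Finset.sum_comm

end Pool.Agent.H952.BW
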