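import Pool.Agent.H952.BW.Small

/-!
# Subspaces in `2A - 2A` over `𝔽_p ^ n` (task BW-H, by helper878)
-/

set_option autoImplicit false

namespace Pool.Agent.H952.BW

open Finset
open scoped Pointwise

section fpsub

variable {p : ℕ} [Fact p.Prime] {n : ℕ}

theorem fp_smul0 (x : Fin n → ZMod p) : p • x = 0 := by
  funext i
  simp

theorem fp_pow (ψ : AddChar (Fin n → ZMod p) ℂ) (x : Fin n → ZMod p) : ψ x ^ p = 1 := by
  rw [← AddChar.map_nsmul_eq_pow, fp_smul0, AddChar.map_zero_eq_one]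

/-- the subspace where all characters of a finite set are trivial -/
def fpW (Λ : Finset (AddChar (Fin n → ZMod p) ℂ)) : Submodule (ZMod p) (Fin n → ZMod p) where
  carrier := {x | ∀ ψ ∈ Λ, ψ x = 1}
  zero_mem' := fun ψ _ => AddChar.map_zero_eq_one ψ
  add_mem' := fun {x y} hx hy ψ hψ => by
    rw [AddChar.map_add_eq_mul, hx ψ hψ, hy ψ hψ, one_mul]
  smul_mem' := fun c x hx ψ hψ => by
    have h1 : c • x = c.val • x := by
      have h2 : ((c.val : ℕ) : ZMod p) = c := ZMod.natCast_zmod_val c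
      rw [← h2, Nat.cast_smul_eq_nsmul, h2]
    rw [h1, AddChar.map_nsmul_eq_pow, hx ψ hψ, one_pow]

theorem fp_mem (Λ : Finset (AddChar (Fin n → ZMod p) ℂ)) (x : Fin n → ZMod p) :
    x ∈ fpW Λ ↔ ∀ ψ ∈ Λ, ψ x = 1 := Iff.rfl

theorem fp_card (Λ : Finset (AddChar (Fin n → ZMod p) ℂ)) :
    n ≤ Module.finrank (ZMod p) (fpW Λ) + Λ.card := by
  classical
  have hp : p.Prime := Fact.out
  let f : (Fin n → ZMod p) → (Λ → ℂ) := fun x ψ => ψ.1 x
  let S : Finset (Fin n → ZMod p) := Finset.univ.filter (fun x => x ∈ fpW Λ)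
  have hS : S.card = p ^ Module.finrank (ZMod p) (fpW Λ) := by
    have h1 : Nat.card (fpW Λ) = Nat.card (ZMod p) ^ Module.finrank (ZMod p) (fpW Λ) :=
      Module.natCard_eq_pow_finrank
    rw [Nat.card_zmod] at h1
    rw [← h1, Nat.card_eq_fintype_card]
    exact (Fintype.card_of_subtype S (fun x => by
      simp only [S, Finset.mem_filter, Finset.mem_univ, true_and])).symm
  have hfib : ∀ b ∈ (Finset.univ : Finset (Fin n → ZMod p)).image f,
      (Finset.univ.filter (fun x => f x = b)).card ≤ S.card := by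
    intro b hb
    obtain ⟨x₀, -, hx₀⟩ := Finset.mem_image.1 hb
    refine Finset.card_le_card_of_injOn (fun x => x - x₀) ?_ ?_
    · intro x hx
      have hx' : f x = b := (Finset.mem_filter.1 (Finset.mem_coe.1 hx)).2
      refine Finset.mem_coe.2 (Finset.mem_filter.2 ⟨Finset.mem_univ _, fun ψ hψ => ?_⟩)
      have h1 : f x ⟨ψ, hψ⟩ = f x₀ ⟨ψ, hψ⟩ := by rw [hx', hx₀]
      have h2 : ψ x = ψ x₀ := h1
      have h3 : ψ (x - x₀) * ψ x₀ = ψ x₀ := by
        rw [← AddChar.map_add_eq_mul, sub_add_cancel, h2]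
      have h4 : ψ x₀ ≠ 0 := by
        intro h0
        have h5 := fp_pow ψ x₀
        rw [h0, zero_pow hp.ne_zero] at h5
        exact zero_ne_one h5
      exact mul_right_cancel₀ h4 (by rw [h3, one_mul])
    · intro x _ y _ hxy
      exact sub_left_injective hxy
  have himg : ((Finset.univ : Finset (Fin n → ZMod p)).image f).card ≤ p ^ Λ.card := by
    have h1 : (Finset.univ : Finset (Fin n → ZMod p)).image f ⊆
        Fintype.piFinset (fun _ : Λ => (Polynomial.nthRoots p (1 : ℂ)).toFinset) := by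
      intro b hb
      obtain ⟨x, -, rfl⟩ := Finset.mem_image.1 hb
      rw [Fintype.mem_piFinset]
      intro ψ
      rw [Multiset.mem_toFinset, Polynomial.mem_nthRoots hp.pos]
      exact fp_pow ψ.1 x
    refine (Finset.card_le_card h1).trans ?_
    rw [Fintype.card_piFinset, Finset.prod_const, Finset.card_univ, Fintype.card_coe]
    exact Nat.pow_le_pow_left ((Multiset.toFinset_card_le _).trans
      (Polynomial.card_nthRoots p 1)) _
  have hmain := Finset.card_le_mul_card_image (f := f) (Finset.univ : Finset (Fin n → ZMod p))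
    S.card hfib
  rw [Finset.card_univ, Fintype.card_fun, Fintype.card_fin, ZMod.card, hS] at hmain
  have h2 : p ^ n ≤ p ^ (Module.finrank (ZMod p) (fpW Λ) + Λ.card) := by
    rw [pow_add]
    exact hmain.trans (Nat.mul_le_mul_left _ himg)
  exact (Nat.pow_le_pow_iff_right hp.one_lt).1 h2

end fpsub

/-- BW-H2: the same with the doubling constant -/
theorem fp_doubling : ∃ C : ℝ, 0 < C ∧ ∀ (p : ℕ) [Fact p.Prime] (n : ℕ) (A : Finset (Fin n → ZMod p)) (K : ℝ),
    A.Nonempty → 1 ≤ K → (((A ×ˢ A).image fun q => q.1 - q.2).card : ℝ) ≤ K * A.card →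
    ∃ W : Submodule (ZMod p) (Fin n → ZMod p),
      (n : ℝ) ≤ Module.finrank (ZMod p) W + C * (Real.log ((p : ℝ) ^ n / A.card) + (1 + Real.log K) ^ 3) ∧
      ∀ x ∈ W, ∃ a ∈ A, ∃ b ∈ A, ∃ c ∈ A, ∃ d ∈ A, x = a + b - c - d := by
  refine ⟨104000, by norm_num, fun p _ n A K hA hK h => ?_⟩
  have hApos : (0 : ℝ) < A.card := by exact_mod_cast hA.card_pos
  have hl : 0 ≤ Real.log K := Real.log_nonneg hK
  have hdiff : ((A - A).card : ℝ) ≤ Real.exp (Real.log K) * A.card := by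
    rw [Real.exp_log (by linarith)]
    exact h
  obtain ⟨Λ, hΛ, hmain⟩ := small_diff3 A hA (Real.log K) hl hdiff
  refine ⟨fpW Λ, ?_, fun x hx => hmain x fun ψ hψ => ?_⟩
  · have h1 := fp_card Λ
    have h2 : (n : ℝ) ≤ Module.finrank (ZMod p) (fpW Λ) + Λ.card := by exact_mod_cast h1
    have hcard : ((Fintype.card (Fin n → ZMod p) : ℕ) : ℝ) = (p : ℝ) ^ n := by
      rw [Fintype.card_fun, Fintype.card_fin, ZMod.card]
      push_cast
      rfl
    rw [hcard] at hΛ
    have h3 : (A.card : ℝ) ≤ (p : ℝ) ^ n := by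
      rw [← hcard]
      exact_mod_cast Finset.card_le_univ A
    have h4 : 0 ≤ Real.log ((p : ℝ) ^ n / A.card) :=
      Real.log_nonneg ((one_le_div hApos).2 h3)
    have h5 : 0 ≤ (1 + Real.log K) ^ 3 := by positivity
    linarith
  · rw [(fp_mem Λ x).1 hx ψ hψ, sub_self, norm_zero]
    positivity

/-- BW-H: subspaces in `2A - 2A` over `𝔽_p ^ n`, every prime `p`, absolute constant. -/
theorem fp_bound : ∃ C : ℝ, 0 < C ∧ ∀ (p : ℕ) [Fact p.Prime] (n : ℕ) (A : Finset (Fin n → ZMod p)) (α : ℝ),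
    0 < α → α ≤ 1 / 2 → α * (p : ℝ) ^ n ≤ (A.card : ℝ) →
    ∃ W : Submodule (ZMod p) (Fin n → ZMod p),
      (n : ℝ) ≤ Module.finrank (ZMod p) W + C * Real.log (1 / α) ^ 3 ∧
      ∀ x ∈ W, ∃ a ∈ A, ∃ b ∈ A, ∃ c ∈ A, ∃ d ∈ A, x = a + b - c - d := by
  obtain ⟨C, hC, hD⟩ := fp_doubling
  refine ⟨18 * C, by positivity, fun p hp n A α hα hα2 hA => ?_⟩
  have hp0 : (0 : ℝ) < p := by exact_mod_cast hp.out.pos
  have hpn : (0 : ℝ) < (p : ℝ) ^ n := by positivity
  have hApos : (0 : ℝ) < A.card := lt_of_lt_of_le (by positivity) hA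
  have hAne : A.Nonempty := Finset.card_pos.1 (by exact_mod_cast hApos)
  have hcard : ((Fintype.card (Fin n → ZMod p) : ℕ) : ℝ) = (p : ℝ) ^ n := by
    rw [Fintype.card_fun, Fintype.card_fin, ZMod.card]
    push_cast
    rfl
  have h3 : (A.card : ℝ) ≤ (p : ℝ) ^ n := by
    rw [← hcard]
    exact_mod_cast Finset.card_le_univ A
  obtain ⟨K, hK⟩ : ∃ K : ℝ, K = (p : ℝ) ^ n / A.card := ⟨_, rfl⟩
  have hK1 : 1 ≤ K := by
    rw [hK]
    exact (one_le_div hApos).2 h3
  have hKA : (((A ×ˢ A).image fun q => q.1 - q.2).card : ℝ) ≤ K * A.card := by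
    rw [hK, div_mul_cancel₀ _ hApos.ne', ← hcard]
    exact_mod_cast Finset.card_le_univ _
  obtain ⟨W, h1, h2⟩ := hD p n A K hAne hK1 hKA
  refine ⟨W, h1.trans ?_, h2⟩
  rw [← hK]
  obtain ⟨t, ht⟩ : ∃ t : ℝ, t = Real.log (1 / α) := ⟨_, rfl⟩
  rw [← ht]
  have hlK : Real.log K ≤ t := by
    rw [ht]
    refine Real.log_le_log (by linarith) ?_
    rw [hK, div_le_div_iff₀ hApos hα, one_mul, mul_comm]
    exact hA
  have hl0 : 0 ≤ Real.log K := Real.log_nonneg hK1
  have ht2 : 2 / 3 ≤ t := by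
    have h4 : Real.log 2 ≤ t := by
      rw [ht]
      refine Real.log_le_log (by norm_num) ?_
      rw [le_div_iff₀ hα]
      linarith
    have h5 := Real.log_two_gt_d9
    linarith
  have ht0 : 0 ≤ t := by linarith
  have h6 : (1 + Real.log K) ^ 3 ≤ (5 / 2 * t) ^ 3 :=
    pow_le_pow_left₀ (by linarith) (by linarith) 3
  have h7 : Real.log K ≤ 9 / 4 * t ^ 3 := by
    have h8 : 1 ≤ 9 / 4 * t ^ 2 := by nlinarith
    calc Real.log K ≤ t := hlK
      _ = t * 1 := (mul_one t).symm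
      _ ≤ t * (9 / 4 * t ^ 2) := mul_le_mul_of_nonneg_left h8 ht0
      _ = 9 / 4 * t ^ 3 := by ring
  have h9 : 0 ≤ t ^ 3 := by positivity
  have h10 : Real.log K + (1 + Real.log K) ^ 3 ≤ 18 * t ^ 3 := by
    have e : (5 / 2 * t) ^ 3 = 125 / 8 * t ^ 3 := by ring
    rw [e] at h6
    linarith
  have h11 : C * (Real.log K + (1 + Real.log K) ^ 3) ≤ C * (18 * t ^ 3) :=
    mul_le_mul_of_nonneg_left h10 hC.le
  linarith

end Pool.Agent.H952.BW
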