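import Pool.Agent.H952.BW.Stm

set_option autoImplicit false

namespace Pool.Agent.H952.BW

open Finset Pool.Agent.K4H60.BZ
open scoped Pointwise BigOperators ComplexConjugate

variable {G : Type*} [AddCommGroup G] [Fintype G] [DecidableEq G]

theorem A_zero_mem (B : Finset G) (n : ℕ) (v : Fin n → G) (hv : v ∈ PT B n) : (0 : G) ∈ TT B v := by
  unfold PT at hv
  rw [Fintype.mem_piFinset] at hv
  unfold TT
  rw [mem_filter]
  refine ⟨mem_univ _, fun i => ?_⟩
  rw [sub_zero]
  exact hv i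

theorem A_sum_cw (B : Finset G) (n : ℕ) (v : Fin n → G) (hv : v ∈ PT B n) (x : G) :
    ∑ y, cw B v (x - y) = 1 := by
  have h1 : ∑ y, cw B v (x - y) = ∑ t, cw B v t := Equiv.sum_comp (Equiv.subLeft x) (cw B v)
  rw [h1]
  unfold cw
  rw [← sum_filter, sum_const, nsmul_eq_mul]
  have h2 : (univ.filter fun u => u ∈ TT B v) = TT B v := by
    ext u
    simp
  rw [h2]
  have h3 : (0 : ℝ) < ((TT B v).card : ℝ) := by
    exact_mod_cast card_pos.mpr ⟨0, A_zero_mem B n v hv⟩
  field_simp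

theorem A_gg_mem (B D : Finset G) (x : G) : 0 ≤ gg B D x ∧ gg B D x ≤ 1 := by
  unfold gg
  refine ⟨div_nonneg (sum_nonneg fun a _ => ind_nonneg _ _) (Nat.cast_nonneg _), ?_⟩
  apply div_le_one_of_le₀ _ (Nat.cast_nonneg _)
  calc ∑ b ∈ B, ind D (x - b) ≤ ∑ b ∈ B, (1 : ℝ) := sum_le_sum fun a _ => ind_le_one _ _
    _ = _ := by simp

/-- T1 -/
theorem rowP (B D : Finset G) (hB : B.Nonempty) (n : ℕ) (hn : 0 < n) (μ : ℝ) (x : G) :
    ∑ y, PP B D n μ x y ≤ Real.exp (μ ^ 2 / (2 * n)) := by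
  have hn' : (0 : ℝ) < n := by exact_mod_cast hn
  have hBpos : (0 : ℝ) < B.card := by exact_mod_cast hB.card_pos
  have h1 : ∑ y, PP B D n μ x y =
      (∑ v ∈ PT B n, Real.exp (μ * (gg B D x - (∑ i, ind D (x - v i)) / n))) / (B.card : ℝ) ^ n := by
    unfold PP
    rw [← sum_div, sum_comm]
    congr 1
    refine sum_congr rfl fun v hv => ?_
    rw [← sum_mul, A_sum_cw B n v hv x, one_mul]
  have h2 : ∀ v : Fin n → G, Real.exp (μ * (gg B D x - (∑ i, ind D (x - v i)) / n)) =
      Real.exp ((-(μ / n)) * ∑ i, (ind D (x - v i) - gg B D x)) := by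
    intro v
    congr 1
    rw [sum_sub_distrib, sum_const, card_univ, Fintype.card_fin, nsmul_eq_mul]
    field_simp
    ring
  rw [h1]
  simp_rw [h2]
  have h3 := exp_moment B n (fun a => ind D (x - a) - gg B D x) (by
    intro a _
    have e1 := ind_nonneg D (x - a)
    have e2 := ind_le_one D (x - a)
    obtain ⟨e3, e4⟩ := A_gg_mem B D x
    rw [abs_le]
    constructor <;> linarith) (by
    rw [sum_sub_distrib, sum_const, nsmul_eq_mul]
    unfold gg
    field_simp
    ring) (-(μ / n))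
  rw [div_le_iff₀ (by positivity)]
  refine h3.trans (le_of_eq ?_)
  rw [mul_comm]
  congr 2
  field_simp

end Pool.Agent.H952.BW
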