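import Pool.Agent.H952.BW.Core2

/-!
# Sets of small doubling in a finite abelian group
-/

set_option autoImplicit false
set_option linter.unusedSectionVars false

namespace Pool.Agent.H952.BW

open Finset Pool.Agent.K4H60.BZ
open scoped Pointwise BigOperators ComplexConjugate

theorem small_diff3 {G : Type*} [AddCommGroup G] [Fintype G] [DecidableEq G] (B : Finset G) (hB : B.Nonempty)
    (l : ℝ) (hl : 0 ≤ l) (hdiff : ((B - B).card : ℝ) ≤ Real.exp l * B.card) :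
    ∃ Λ : Finset (AddChar G ℂ),
      (Λ.card : ℝ) ≤ 8 * (Real.log (Fintype.card G / B.card) + 13000 * (1 + l) ^ 3) ∧
      ∀ x : G, (∀ ψ ∈ Λ, ‖ψ x - 1‖ ≤ 1 / (216 * ((Λ.card : ℝ) + 1) ^ 3)) →
        ∃ a₁ ∈ B, ∃ a₂ ∈ B, ∃ a₃ ∈ B, ∃ a₄ ∈ B, x = a₁ + a₂ - a₃ - a₄ := by
  have hBpos : (0 : ℝ) < B.card := by exact_mod_cast hB.card_pos
  have hexp := Real.exp_pos l
  -- Plünnecke
  obtain ⟨κ, hκ⟩ : ∃ κ : ℝ, κ = ((B - B).card : ℝ) / B.card := ⟨_, rfl⟩
  have hκ0 : 0 ≤ κ := by rw [hκ]; positivity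
  have hκle : κ ≤ Real.exp l := by
    rw [hκ, div_le_iff₀ hBpos]
    exact hdiff
  have p5 : ((S5 B).card : ℝ) ≤ Real.exp l ^ 5 * B.card := by
    unfold S5
    have h1 := Finset.pluennecke_ruzsa_inequality_nsmul_sub_nsmul_sub hB B 3 2
    have h2 : ((3 • B - 2 • B).card : ℝ) ≤ κ ^ (3 + 2) * B.card := by
      rw [hκ]
      have h3 := (NNRat.cast_le (K := ℝ)).2 h1
      push_cast at h3
      exact h3
    refine h2.trans ?_
    gcongr
  -- parameters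
  obtain ⟨k, hk⟩ : ∃ k : ℕ, k = ⌈5 + 3 / 2 * l⌉₊ := ⟨_, rfl⟩
  have hk1 : 5 + 3 / 2 * l ≤ k := by rw [hk]; exact Nat.le_ceil _
  have hk2 : (k : ℝ) ≤ 6 * (1 + l) := by
    rw [hk]
    have := Nat.ceil_lt_add_one (show 0 ≤ 5 + 3 / 2 * l by positivity)
    linarith
  have hkpos : (0 : ℝ) < k := by linarith
  obtain ⟨n, hn⟩ : ∃ n : ℕ, n = ⌈2048 * (k : ℝ) * (1 + l)⌉₊ := ⟨_, rfl⟩
  have hn1 : 2048 * (k : ℝ) * (1 + l) ≤ n := by rw [hn]; exact Nat.le_ceil _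
  have hn2 : (n : ℝ) ≤ 13000 * (1 + l) ^ 2 := by
    rw [hn]
    have h1 := Nat.ceil_lt_add_one (show 0 ≤ 2048 * (k : ℝ) * (1 + l) by positivity)
    have h2 : 2048 * (k : ℝ) * (1 + l) ≤ 2048 * (6 * (1 + l)) * (1 + l) := by gcongr
    nlinarith
  -- the number of steps
  have c2 : 32 * ((B - B).card : ℝ) ≤ 2 ^ k * B.card := by
    have e1 : (2 : ℝ) ^ k = Real.exp (k * Real.log 2) := by
      rw [mul_comm, Real.exp_mul, Real.exp_log (by norm_num), Real.rpow_natCast]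
    have e3 : 32 * Real.exp l ≤ (2 : ℝ) ^ k := by
      rw [e1]
      have e4 : (32 : ℝ) = Real.exp (5 * Real.log 2) := by
        rw [mul_comm, Real.exp_mul, Real.exp_log (by norm_num)]
        norm_num
      rw [e4, ← Real.exp_add]
      apply Real.exp_le_exp.2
      have h2 := Real.log_two_gt_d9
      have h5 : (5 + 3 / 2 * l) * Real.log 2 ≤ k * Real.log 2 := by gcongr
      nlinarith
    calc 32 * ((B - B).card : ℝ) ≤ 32 * (Real.exp l * B.card) := by gcongr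
      _ = (32 * Real.exp l) * B.card := by ring
      _ ≤ 2 ^ k * B.card := by gcongr
  -- the concentration
  obtain ⟨N, hN⟩ : ∃ N : ℕ, N = n + 1 := ⟨_, rfl⟩
  have hNpos : 0 < N := by omega
  have hN' : (0 : ℝ) < N := by exact_mod_cast hNpos
  have hNn : (n : ℝ) ≤ N := by rw [hN]; push_cast; linarith
  obtain ⟨δ, hδ⟩ : ∃ δ : ℝ, δ = Real.exp (-(N / (512 * k)) + 5 / 2 * l) := ⟨_, rfl⟩
  have hkδ : k * δ ≤ 1 / 8 := by
    have h1 : 4 * (1 + l) ≤ N / (512 * k) := by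
      rw [le_div_iff₀ (by positivity)]
      calc 4 * (1 + l) * (512 * k) = 2048 * (k : ℝ) * (1 + l) := by ring
        _ ≤ n := hn1
        _ ≤ N := hNn
    have h2 : δ ≤ Real.exp (-4 - l) := by
      rw [hδ]
      apply Real.exp_le_exp.2
      linarith
    have h3 : 1 + l ≤ Real.exp l := by linarith [Real.add_one_le_exp l]
    have h4 : (48 : ℝ) ≤ Real.exp 4 := by
      have h5 := Real.exp_one_gt_d9
      have h6 : Real.exp 4 = Real.exp 1 ^ 4 := by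
        rw [← Real.exp_nat_mul]; norm_num
      rw [h6]
      calc (48 : ℝ) ≤ 2.7 ^ 4 := by norm_num
        _ ≤ Real.exp 1 ^ 4 := by gcongr; linarith
    have h5 : Real.exp (-4 - l) * (Real.exp 4 * Real.exp l) = 1 := by
      rw [← Real.exp_add, ← Real.exp_add]
      have : -4 - l + (4 + l) = 0 := by ring
      rw [this, Real.exp_zero]
    have h6 : 0 < Real.exp (-4 - l) := Real.exp_pos _
    have h7 : 0 ≤ δ := by rw [hδ]; exact (Real.exp_pos _).le
    calc k * δ ≤ (6 * (1 + l)) * Real.exp (-4 - l) := by gcongr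
      _ ≤ (6 * Real.exp l) * Real.exp (-4 - l) := by gcongr
      _ = (1 / 8) * (Real.exp (-4 - l) * (48 * Real.exp l)) := by ring
      _ ≤ (1 / 8) * (Real.exp (-4 - l) * (Real.exp 4 * Real.exp l)) := by gcongr
      _ = 1 / 8 := by rw [h5, mul_one]
  have hmean : 3 / 4 * (B.card : ℝ) ≤ ∑ x ∈ B, ∑ y, (RR B N ^ k) x y * gg B (B - B) y := by
    apply mean_after B hB N hNpos k δ hkδ
    intro j hj Y hY hYg
    obtain ⟨μ, hμ⟩ : ∃ μ : ℝ, μ = N / (32 * k) := ⟨_, rfl⟩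
    have h1 := conc B (B - B) hB N hNpos k j hj B Y μ (by rw [hμ]; positivity) (1 / 8) (by
      intro x hx y hy
      rw [gg_self B hB x hx]
      linarith [hYg y hy])
    have h2 : √((B.card : ℝ)) * √((Y.card : ℝ)) ≤ Real.exp (5 / 2 * l) * B.card := by
      rw [← Real.sqrt_mul (Nat.cast_nonneg _)]
      apply Real.sqrt_le_iff.2
      refine ⟨by positivity, ?_⟩
      have h3 : (Y.card : ℝ) ≤ (S5 B).card := by exact_mod_cast card_le_card hY
      calc (B.card : ℝ) * Y.card ≤ B.card * (Real.exp l ^ 5 * B.card) := by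
            gcongr
            exact h3.trans p5
        _ = (Real.exp (5 / 2 * l) * B.card) ^ 2 := by
            rw [mul_pow, ← Real.exp_nat_mul, ← Real.exp_nat_mul]
            push_cast
            rw [show (2 : ℝ) * (5 / 2 * l) = 5 * l by ring]
            ring
    have h3 : Real.exp (μ * (1 / 8)) * ∑ x ∈ B, ∑ y ∈ Y, (RR B N ^ j) x y ≤
        Real.exp (2 * k * μ ^ 2 / N) * (Real.exp (5 / 2 * l) * B.card) := by
      refine h1.trans ?_
      gcongr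
    have h4 : Real.exp (2 * k * μ ^ 2 / N) * (Real.exp (5 / 2 * l) * B.card) =
        Real.exp (μ * (1 / 8)) * (δ * B.card) := by
      rw [hδ, ← mul_assoc, ← mul_assoc, ← Real.exp_add, ← Real.exp_add]
      congr 2
      rw [hμ]
      field_simp
      ring
    rw [h4] at h3
    exact le_of_mul_le_mul_left h3 (Real.exp_pos _)
  obtain ⟨Λ, hΛ, hmain⟩ := core2 B hB N k c2 hmean
  refine ⟨Λ, ?_, hmain⟩
  have hent := ent_bound B hB n l hdiff
  rw [← hN] at hent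
  have h5 : (n : ℝ) * l ≤ 13000 * (1 + l) ^ 3 := by
    calc (n : ℝ) * l ≤ 13000 * (1 + l) ^ 2 * (1 + l) := by gcongr; linarith
      _ = _ := by ring
  linarith

/-- the bound for cyclic groups -/
theorem main3 : ∃ C : ℝ, 0 < C ∧ ∃ c : ℝ, 0 < c ∧
    ∀ N : ℕ, 0 < N → ∀ A : Finset (ZMod N), A.Nonempty → (A.card : ℝ) / (N : ℝ) ≤ 1 / 2 →
    ∀ K : ℝ, (A.card : ℝ) ^ 3 ≤ K * (A.addEnergy A : ℕ) →
      ∃ Γ : Finset (ZMod N), ∃ ε : ℝ, 0 < ε ∧
        (Γ.card : ℝ) ≤ C * (Real.log ((N : ℝ) / (A.card : ℝ)) + Real.log K ^ 3) ∧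
        c / Real.log ((N : ℝ) / (A.card : ℝ)) ≤ ε ∧
        ∀ x : ZMod N, (∀ γ ∈ Γ, nint (((γ * x).val : ℝ) / (N : ℝ)) ≤ ε) →
          ∃ a₁ ∈ A, ∃ a₂ ∈ A, ∃ a₃ ∈ A, ∃ a₄ ∈ A, x = a₁ + a₂ - a₃ - a₄ :=
  main_of fun _G _ _ _ B hB l hl hdiff => small_diff3 B hB l hl hdiff

end Pool.Agent.H952.BW
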