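import Pool.Graph.R_pool_sql_team_seeded_c8625f6e.K4H60.BZ.Main

/-!
# A reversible walk whose steps are made from fresh random samples: definitions

`B` is a nonempty finite subset of the finite abelian group `G`. A sample is a tuple `v ∈ B ^ n`, and
`TT B v = {t : v i - t ∈ B for all i}` (it contains `0`). One step of the walk: choose a sample `v` uniformly, then
`t ∈ TT B v` uniformly, and go from `x` to `x - t`. Its matrix is `RR B n`.
-/

set_option autoImplicit false

namespace Pool.Agent.H952.BW

open Finset Pool.Agent.K4H60.BZ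
open scoped Pointwise BigOperators ComplexConjugate

variable {G : Type*} [AddCommGroup G] [Fintype G] [DecidableEq G]

/-- the samples: tuples of `n` elements of `B` -/
def PT (B : Finset G) (n : ℕ) : Finset (Fin n → G) := Fintype.piFinset (fun _ : Fin n => B)

/-- the set `T_v` -/
def TT (B : Finset G) {n : ℕ} (v : Fin n → G) : Finset G := univ.filter fun t => ∀ i, v i - t ∈ B

/-- the uniform distribution on `T_v` -/
noncomputable def cw (B : Finset G) {n : ℕ} (v : Fin n → G) (u : G) : ℝ :=
  if u ∈ TT B v then 1 / ((TT B v).card : ℝ) else 0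

/-- the proportion of the `b ∈ B` with `z - b ∈ D` -/
noncomputable def gg (B D : Finset G) (z : G) : ℝ := (∑ b ∈ B, ind D (z - b)) / B.card

/-- the matrix of one step of the walk -/
noncomputable def RR (B : Finset G) (n : ℕ) : Matrix G G ℝ := fun x y =>
  (∑ v ∈ PT B n, cw B v (x - y)) / (B.card : ℝ) ^ n

/-- the tilted matrix -/
noncomputable def PP (B D : Finset G) (n : ℕ) (μ : ℝ) : Matrix G G ℝ := fun x y =>
  (∑ v ∈ PT B n, cw B v (x - y) * Real.exp (μ * (gg B D x - (∑ i, ind D (x - v i)) / n))) / (B.card : ℝ) ^ n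

/-- the eigenvalue of the walk at the character `ψ` -/
noncomputable def cc (B : Finset G) (n : ℕ) (ψ : AddChar G ℂ) : ℂ :=
  (∑ v ∈ PT B n, (∑ t ∈ TT B v, conj (ψ t)) / ((TT B v).card : ℂ)) / (B.card : ℂ) ^ n

/-- the mean of `log (|G| / |T_v|)` -/
noncomputable def HH (B : Finset G) (n : ℕ) : ℝ :=
  (∑ v ∈ PT B n, Real.log (Fintype.card G / (TT B v).card)) / (B.card : ℝ) ^ n

end Pool.Agent.H952.BW
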